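import Pool.Agent.Lib.TATE.MG.Spec

/-!
# PROJECT TATE, package MG: the Baire argument
-/

set_option autoImplicit false

open Topology Metric

noncomputable section

namespace TATE.MG

open HC HC.CC SEJ TATE

namespace Bai_aux

/-- Rational vectors go to rational vectors. -/
theorem lqPush {m r : ℕ} {b : Fin (r + 1) → ℕ} (Φ : FamD m b) {t₀ t₁ : Fin (r + 1) → ℂ}
    (hi : Function.Injective t₀) (ht : t₁ ∈ ball t₀ (Φ.ρ t₀)) {v : Ix m b → ℂ}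
    (hv : v ∈ LQ m b t₀) : Φ.τ t₀ t₁ v ∈ LQ m b t₁ := by
  obtain ⟨k, hk, hkv⟩ := hv
  refine ⟨k, hk, ?_⟩
  rw [← map_nsmul, ← Φ.latZ t₀ hi t₁ ht]
  exact ⟨_, hkv, rfl⟩

/-- Every rational vector is the image of a rational vector. -/
theorem lqPull {m r : ℕ} {b : Fin (r + 1) → ℕ} (Φ : FamD m b) {t₀ t₁ : Fin (r + 1) → ℂ}
    (hi : Function.Injective t₀) (ht : t₁ ∈ ball t₀ (Φ.ρ t₀)) {w : Ix m b → ℂ}
    (hw : w ∈ LQ m b t₁) : ∃ v ∈ LQ m b t₀, Φ.τ t₀ t₁ v = w := by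
  obtain ⟨k, hk, hkw⟩ := hw
  rw [← Φ.latZ t₀ hi t₁ ht] at hkw
  obtain ⟨l, hl, hlw⟩ := hkw
  refine ⟨(Φ.τ t₀ t₁).symm w, ⟨k, hk, ?_⟩, LinearEquiv.apply_symm_apply _ _⟩
  have h1 : k • (Φ.τ t₀ t₁).symm w = l := by
    rw [← map_nsmul, ← hlw, LinearEquiv.symm_apply_apply]
  rw [h1]
  exact hl

/-- A finite sum of periods is a period. -/
theorem lzSum {m r : ℕ} {b : Fin (r + 1) → ℕ} {t : Fin (r + 1) → ℂ}
    (h0 : (0 : Ix m b → ℂ) ∈ LZ m b t) (ha : ∀ u ∈ LZ m b t, ∀ v ∈ LZ m b t, u + v ∈ LZ m b t)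
    {k : ℕ} (f : Fin k → (Ix m b → ℂ)) (hf : ∀ a, f a ∈ LZ m b t) : ∑ a, f a ∈ LZ m b t := by
  classical
  induction (Finset.univ : Finset (Fin k)) using Finset.induction_on with
  | empty =>
    rw [Finset.sum_empty]
    exact h0
  | insert a s has ih =>
    rw [Finset.sum_insert has]
    exact ha _ (hf a) _ ih

/-- The integrals near a point. -/
theorem near (hInt : IntC) (hT : S_TCo) (Φ : FF) (p N : ℕ) (D : Dt p N) (h : D.ok) {K : ℕ}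
    (g : Grm p K) (n : Fin N) (k : ℕ) (Q' Q : Fin k → Fin K × Fin K)
    (hst : ∀ s' ∈ g.W, Function.Injective s' → ∀ a,
      pnt (g.Y s') (Q' a) ∈ Pts (D.m n) (D.b n) (D.t s' n) ∧
      pnt (g.Y s') (Q a) ∈ Pts (D.m n) (D.b n) (D.t s' n)) (ξ : Fin p → ℂ) (hξ : ξ ∈ g.W)
    (hξi : Function.Injective ξ) (v₀ : Fin k → (Ix (D.m n) (D.b n) → ℂ))
    (hv₀ : ∀ a, Itg (D.m n) (D.b n) (D.t ξ n) (pnt (g.Y ξ) (Q' a)) (pnt (g.Y ξ) (Q a)) (v₀ a)) :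
    ∃ ε > 0, ball ξ ε ⊆ g.W ∧ (∀ s' ∈ ball ξ ε, Function.Injective s' ∧
      D.t s' n ∈ ball (D.t ξ n) ((Φ _ _ _ (h.cv n)).ρ (D.t ξ n))) ∧
      ∃ V : Fin k → (Fin p → ℂ) → (Ix (D.m n) (D.b n) → ℂ),
        (∀ a, DifferentiableOn ℂ (V a) (ball ξ ε)) ∧ (∀ a, V a ξ = v₀ a) ∧
        ∀ s' ∈ ball ξ ε, ∀ a,
          Itg (D.m n) (D.b n) (D.t s' n) (pnt (g.Y s') (Q' a)) (pnt (g.Y s') (Q a)) (V a s') := by
  obtain ⟨hT1, hT2, hT3, hT4, -⟩ := hT p N D h n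
  have hWo : IsOpen (g.W ∩ {s : Fin p → ℂ | Function.Injective s}) := g.op.inter hT1
  have hex : ∀ a : Fin k, ∃ ε > 0, ball ξ ε ⊆ g.W ∩ {s : Fin p → ℂ | Function.Injective s} ∧
      ∃ V : (Fin p → ℂ) → (Ix (D.m n) (D.b n) → ℂ),
        DifferentiableOn ℂ V (ball ξ ε) ∧ V ξ = v₀ a ∧ ∀ s' ∈ ball ξ ε,
          Itg (D.m n) (D.b n) (D.t s' n) (pnt (g.Y s') (Q' a)) (pnt (g.Y s') (Q a)) (V s') := by
    intro a
    exact (hInt p N D h n K (Q' a) (Q a)).1 _ g.Y hWo (g.hol.mono Set.inter_subset_left)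
      (fun s' hs' => ⟨hs'.2, hst s' hs'.1 hs'.2 a⟩) ξ ⟨hξ, hξi⟩ (v₀ a) (hv₀ a)
  choose e he hsub V hV hVξ hVI using hex
  obtain ⟨ε₁, hε₁, hb₁⟩ := hT4 ξ hξi _ ((Φ _ _ _ (h.cv n)).rpos (D.t ξ n) (hT3 ξ hξi))
  obtain ⟨ε₂, hε₂, hb₂⟩ := Metric.isOpen_iff.1 g.op ξ hξ
  have hev : ∀ᶠ ε in 𝓝[>] (0 : ℝ), (∀ a, ε < e a) ∧ ε < ε₁ ∧ ε < ε₂ ∧ 0 < ε := by
    have h1 : ∀ᶠ ε in 𝓝[>] (0 : ℝ), ∀ a, ε < e a := by
      rw [Filter.eventually_all]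
      intro a
      filter_upwards [Ioo_mem_nhdsGT (he a)] with ε hε using hε.2
    filter_upwards [h1, Ioo_mem_nhdsGT hε₁, Ioo_mem_nhdsGT hε₂] with ε h1 h2 h3
      using ⟨h1, h2.2, h3.2, h2.1⟩
  obtain ⟨ε, hεa, hεe₁, hεe₂, hε⟩ := hev.exists
  refine ⟨ε, hε, (ball_subset_ball hεe₂.le).trans hb₂, ?_, V, ?_, hVξ, ?_⟩
  · intro s' hs'
    exact hb₁ s' (ball_subset_ball hεe₁.le hs')
  · intro a
    exact (hV a).mono (ball_subset_ball (hεa a).le)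
  · intro s' hs' a
    exact hVI a s' (ball_subset_ball (hεa a).le hs')

/-- The assertion for a fixed index. -/
theorem fixed (hF : StmtFA2) (hG : StmtGA3) (hR : RigC) (hL : LzC) (hInt : IntC) (hT : S_TCo)
    (Φ : FF) (p N : ℕ) (D : Dt p N) (h : D.ok) {K : ℕ}
    (g : Grm p K) (n : Fin N) (k : ℕ) (Q' Q : Fin k → Fin K × Fin K)
    (hst : ∀ s' ∈ g.W, Function.Injective s' → ∀ a,
      pnt (g.Y s') (Q' a) ∈ Pts (D.m n) (D.b n) (D.t s' n) ∧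
      pnt (g.Y s') (Q a) ∈ Pts (D.m n) (D.b n) (D.t s' n)) :
    ∃ X : Set (Fin p → ℂ), IsMeagre X ∧ ∀ s ∉ X, Function.Injective s → s ∈ g.W →
    ∀ u : Fin k → (Ix (D.m n) (D.b n) → ℂ),
    (∀ a, Itg (D.m n) (D.b n) (D.t s n) (pnt (g.Y s) (Q' a)) (pnt (g.Y s) (Q a)) (u a)) →
    ∑ a, u a ∈ LQ (D.m n) (D.b n) (D.t s n) →
    ∃ ε > 0, ball s ε ⊆ g.W ∧ (∀ s' ∈ ball s ε, Function.Injective s' ∧
      D.t s' n ∈ ball (D.t s n) ((Φ _ _ _ (h.cv n)).ρ (D.t s n))) ∧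
      ∃ V : Fin k → (Fin p → ℂ) → (Ix (D.m n) (D.b n) → ℂ),
        (∀ a, DifferentiableOn ℂ (V a) (ball s ε)) ∧ (∀ a, V a s = u a) ∧
        (∀ s' ∈ ball s ε, ∀ a,
          Itg (D.m n) (D.b n) (D.t s' n) (pnt (g.Y s') (Q' a)) (pnt (g.Y s') (Q a)) (V a s')) ∧
        ∀ s' ∈ ball s ε, ∑ a, V a s' = (Φ _ _ _ (h.cv n)).τ (D.t s n) (D.t s' n) (∑ a, u a) := by
  obtain ⟨hT1, hT2, hT3, hT4, -⟩ := hT p N D h n
  obtain ⟨hF1, hF2, hF3, hF4, -⟩ := hF (D.m n) (D.r n) (D.b n) (h.cv n)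
  set Ψ : FamD (D.m n) (D.b n) := Φ _ _ _ (h.cv n) with hΨ
  have hWo : IsOpen (g.W ∩ {s : Fin p → ℂ | Function.Injective s}) := g.op.inter hT1
  -- the data at every point
  have hloc : ∀ ξ : {ξ : Fin p → ℂ // ξ ∈ g.W ∩ {s : Fin p → ℂ | Function.Injective s}},
      ∃ ε > 0, ball ξ.1 ε ⊆ g.W ∧ (∀ s' ∈ ball ξ.1 ε, Function.Injective s' ∧
      D.t s' n ∈ ball (D.t ξ.1 n) (Ψ.ρ (D.t ξ.1 n))) ∧
      ∃ V : Fin k → (Fin p → ℂ) → (Ix (D.m n) (D.b n) → ℂ),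
        (∀ a, DifferentiableOn ℂ (V a) (ball ξ.1 ε)) ∧
        ∀ s' ∈ ball ξ.1 ε, ∀ a,
          Itg (D.m n) (D.b n) (D.t s' n) (pnt (g.Y s') (Q' a)) (pnt (g.Y s') (Q a)) (V a s') := by
    rintro ⟨ξ, hξW, hξi⟩
    have hv : ∀ a : Fin k, ∃ v, Itg (D.m n) (D.b n) (D.t ξ n) (pnt (g.Y ξ) (Q' a))
        (pnt (g.Y ξ) (Q a)) v := fun a =>
      hF1 _ (hT3 ξ hξi) _ (hst ξ hξW hξi a).1 _ (hst ξ hξW hξi a).2
    choose v₀ hv₀ using hv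
    obtain ⟨ε, hε, h1, h2, V, h3, -, h4⟩ := near hInt hT Φ p N D h g n k Q' Q hst ξ hξW hξi v₀ hv₀
    exact ⟨ε, hε, h1, h2, V, h3, h4⟩
  choose e he heW heB V hVd hVI using hloc
  obtain ⟨T, hTc, hTU⟩ := TopologicalSpace.isOpen_iUnion_countable
    (fun ξ : {ξ : Fin p → ℂ // ξ ∈ g.W ∩ {s : Fin p → ℂ | Function.Injective s}} =>
      ball ξ.1 (e ξ)) (fun _ => isOpen_ball)
  haveI : Countable T := hTc.to_subtype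
  have hcnt : ∀ ξ : T, Countable (LQ (D.m n) (D.b n) (D.t ξ.1.1 n)) := fun ξ =>
    (Ψ.cnt _ (hT3 _ ξ.1.2.2)).to_subtype
  -- the set `C(ξ, μ)`
  have hctau : ∀ (ξ : {ξ : Fin p → ℂ // ξ ∈ g.W ∩ {s : Fin p → ℂ | Function.Injective s}})
      (μ : Ix (D.m n) (D.b n) → ℂ),
      ContinuousOn (fun s' => Ψ.τ (D.t ξ.1 n) (D.t s' n) μ) (ball ξ.1 (e ξ)) := by
    intro ξ μ
    have h1 : ContinuousOn (fun s' : Fin p → ℂ => D.t s' n) (ball ξ.1 (e ξ)) :=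
      hT2.continuousOn.mono fun s' hs' => (heB ξ s' hs').1
    exact (Ψ.hol _ (hT3 _ ξ.2.2) μ).continuousOn.comp h1 fun s' hs' => (heB ξ s' hs').2
  have hcV : ∀ (ξ : {ξ : Fin p → ℂ // ξ ∈ g.W ∩ {s : Fin p → ℂ | Function.Injective s}}),
      ContinuousOn (fun s' => ∑ a, V ξ a s') (ball ξ.1 (e ξ)) := fun ξ =>
    continuousOn_finsetSum _ fun a _ => (hVd ξ a).continuousOn
  set C : {ξ : Fin p → ℂ // ξ ∈ g.W ∩ {s : Fin p → ℂ | Function.Injective s}} →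
      (Ix (D.m n) (D.b n) → ℂ) → Set (Fin p → ℂ) := fun ξ μ =>
    {s' | s' ∈ ball ξ.1 (e ξ) ∧ ∑ a, V ξ a s' = Ψ.τ (D.t ξ.1 n) (D.t s' n) μ} with hC
  have hcl : ∀ ξ μ, ∃ K, IsClosed K ∧ C ξ μ = ball ξ.1 (e ξ) ∩ K := by
    intro ξ μ
    have h1 : ContinuousOn (fun s' => ∑ a, V ξ a s' - Ψ.τ (D.t ξ.1 n) (D.t s' n) μ)
        (ball ξ.1 (e ξ)) := (hcV ξ).sub (hctau ξ μ)
    obtain ⟨K, hK, hKe⟩ := continuousOn_iff_isClosed.1 h1 {0} isClosed_singleton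
    refine ⟨K, hK, ?_⟩
    rw [Set.inter_comm, ← hKe]
    ext s'
    simp only [hC, Set.mem_ofPred_eq, Set.mem_inter_iff, Set.mem_preimage, Set.mem_singleton_iff,
      sub_eq_zero]
    exact and_comm
  have hmg : ∀ ξ μ, IsMeagre {s | s ∈ C ξ μ ∧ C ξ μ ∉ 𝓝 s} := by
    intro ξ μ
    have h1 := hG p (fun _ => ball ξ.1 (e ξ)) (fun _ => C ξ μ) (fun _ => isOpen_ball)
      (fun _ => hcl ξ μ)
    refine h1.mono ?_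
    intro s hs
    exact ⟨0, hs⟩
  refine ⟨⋃ ξ : T, ⋃ μ : LQ (D.m n) (D.b n) (D.t ξ.1.1 n), {s | s ∈ C ξ.1 μ.1 ∧ C ξ.1 μ.1 ∉ 𝓝 s},
    isMeagre_iUnion fun ξ => isMeagre_iUnion fun μ => hmg ξ.1 μ.1, ?_⟩
  intro s hsX hsi hsW u hu hus
  -- the ball which contains `s`
  have hs1 : s ∈ ⋃ ξ : {ξ : Fin p → ℂ // ξ ∈ g.W ∩ {s : Fin p → ℂ | Function.Injective s}},
      ball ξ.1 (e ξ) := Set.mem_iUnion.2 ⟨⟨s, hsW, hsi⟩, mem_ball_self (he _)⟩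
  rw [← hTU] at hs1
  obtain ⟨ξ, hξT, hsξ⟩ := Set.mem_iUnion₂.1 hs1
  obtain ⟨l0, ladd, lneg, lzq, lqadd, -, -⟩ := hL (D.m n) (D.r n) (D.b n) (D.t s n) (h.cv n) (hT3 s hsi)
  have hdiff : ∀ a, V ξ a s - u a ∈ LZ (D.m n) (D.b n) (D.t s n) := fun a =>
    hF4 _ (hT3 s hsi) _ _ _ (hVI ξ s hsξ a) _ (hu a)
  have hVs : ∑ a, V ξ a s ∈ LQ (D.m n) (D.b n) (D.t s n) := by
    have h1 : ∑ a, V ξ a s = ∑ a, u a + ∑ a, (V ξ a s - u a) := by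
      rw [← Finset.sum_add_distrib]
      exact Finset.sum_congr rfl fun a _ => by rw [add_sub_cancel]
    rw [h1]
    exact lqadd _ hus _ (lzq _ (lzSum l0 ladd _ hdiff))
  obtain ⟨μ, hμ, hμs⟩ := lqPull Ψ (hT3 _ ξ.2.2) (heB ξ s hsξ).2 hVs
  have hsC : s ∈ C ξ μ := ⟨hsξ, hμs.symm⟩
  have hCn : C ξ μ ∈ 𝓝 s := by
    by_contra hcon
    apply hsX
    exact Set.mem_iUnion.2 ⟨⟨ξ, hξT⟩, Set.mem_iUnion.2 ⟨⟨μ, hμ⟩, hsC, hcon⟩⟩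
  obtain ⟨ε₁, hε₁, hb₁⟩ := Metric.mem_nhds_iff.1 hCn
  obtain ⟨ε₂, hε₂, hW₂, hB₂, V', hV'd, hV's, hV'I⟩ :=
    near hInt hT Φ p N D h g n k Q' Q hst s hsW hsi u hu
  have hε : 0 < min ε₁ ε₂ := lt_min hε₁ hε₂
  have hs₁ : ball s (min ε₁ ε₂) ⊆ ball s ε₁ := ball_subset_ball (min_le_left _ _)
  have hs₂ : ball s (min ε₁ ε₂) ⊆ ball s ε₂ := ball_subset_ball (min_le_right _ _)
  have hpre : IsPreconnected (ball s (min ε₁ ε₂)) := (convex_ball s _).isPreconnected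
  have hne : (ball s (min ε₁ ε₂)).Nonempty := ⟨s, mem_ball_self hε⟩
  have hct : ContinuousOn (fun s' : Fin p → ℂ => D.t s' n) (ball s (min ε₁ ε₂)) :=
    hT2.continuousOn.mono fun s' hs' => (hB₂ s' (hs₂ hs')).1
  have htb : ∀ s' ∈ ball s (min ε₁ ε₂), D.t s' n ∈ ball (D.t s n) (Ψ.ρ (D.t s n)) :=
    fun s' hs' => (hB₂ s' (hs₂ hs')).2
  have hla : ∀ a, ∃ l, ∀ s' ∈ ball s (min ε₁ ε₂),
      V' a s' - V ξ a s' = Ψ.τ (D.t s n) (D.t s' n) l := by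
    intro a
    have hc : ContinuousOn (fun s' => V' a s' - V ξ a s') (ball s (min ε₁ ε₂)) :=
      ((hV'd a).continuousOn.mono hs₂).sub
        ((hVd ξ a).continuousOn.mono fun s' hs' => (hb₁ (hs₁ hs')).1)
    have hq : ∀ s' ∈ ball s (min ε₁ ε₂), V' a s' - V ξ a s' ∈ LQ (D.m n) (D.b n) (D.t s' n) := by
      intro s' hs'
      have hi' : Function.Injective s' := (hB₂ s' (hs₂ hs')).1
      obtain ⟨-, -, -, hzq, -, -, -⟩ :=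
        hL (D.m n) (D.r n) (D.b n) (D.t s' n) (h.cv n) (hT3 s' hi')
      exact hzq _ (hF4 _ (hT3 s' hi') _ _ _ (hV'I s' (hs₂ hs') a) _
        (hVI ξ s' (hb₁ (hs₁ hs')).1 a))
    obtain ⟨l, -, hl, -⟩ := hR _ _ _ Ψ (Fin p → ℂ) (ball s (min ε₁ ε₂)) (fun s' => D.t s' n)
      (D.t s n) _ hpre hne hct (hT3 s hsi) htb hc hq
    exact ⟨l, hl⟩
  choose l hl using hla
  obtain ⟨μ', -, hμ', -⟩ := hR _ _ _ Ψ (Fin p → ℂ) (ball s (min ε₁ ε₂)) (fun s' => D.t s' n)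
      (D.t s n) (fun s' => Ψ.τ (D.t ξ.1 n) (D.t s' n) μ) hpre hne hct (hT3 s hsi) htb
      ((hctau ξ μ).mono fun s' hs' => (hb₁ (hs₁ hs')).1)
      (fun s' hs' => lqPush Ψ (hT3 _ ξ.2.2) (heB ξ s' (hb₁ (hs₁ hs')).1).2 hμ)
  have hsum : ∀ s' ∈ ball s (min ε₁ ε₂),
      ∑ a, V' a s' = Ψ.τ (D.t s n) (D.t s' n) (∑ a, l a + μ') := by
    intro s' hs'
    have h1 : ∑ a, V' a s' = ∑ a, (V' a s' - V ξ a s') + ∑ a, V ξ a s' := by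
      rw [← Finset.sum_add_distrib]
      exact Finset.sum_congr rfl fun a _ => by rw [sub_add_cancel]
    rw [h1, (hb₁ (hs₁ hs')).2, map_add, map_sum, ← hμ' s' hs']
    congr 1
    exact Finset.sum_congr rfl fun a _ => hl a s' hs'
  have hus' : ∑ a, l a + μ' = ∑ a, u a := by
    have h1 := hsum s (mem_ball_self hε)
    rw [Ψ.one _ (hT3 s hsi)] at h1
    rw [← h1]
    exact Finset.sum_congr rfl fun a _ => hV's a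
  refine ⟨min ε₁ ε₂, hε, hs₂.trans hW₂, fun s' hs' => hB₂ s' (hs₂ hs'), V',
    fun a => (hV'd a).mono hs₂, hV's, fun s' hs' a => hV'I s' (hs₂ hs') a, ?_⟩
  intro s' hs'
  rw [hsum s' hs', hus']

end Bai_aux

theorem tBai : S_Bai := by
  classical
  intro hF hG hR hL hInt hT Φ p N D h G hGc
  haveI : ∀ K, Countable (G K) := fun K => (hGc K).to_subtype
  let ι : Type := Σ K : ℕ, (G K) × (Fin N) × (Σ k : ℕ, (Fin k → Fin K × Fin K) ×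
    (Fin k → Fin K × Fin K))
  have hX : ∀ i : ι, ∃ X : Set (Fin p → ℂ), IsMeagre X ∧
      ((∀ s' ∈ i.2.1.1.W, Function.Injective s' → ∀ a,
        pnt (i.2.1.1.Y s') (i.2.2.2.2.1 a) ∈ Pts (D.m i.2.2.1) (D.b i.2.2.1) (D.t s' i.2.2.1) ∧
        pnt (i.2.1.1.Y s') (i.2.2.2.2.2 a) ∈ Pts (D.m i.2.2.1) (D.b i.2.2.1) (D.t s' i.2.2.1)) →
      ∀ s ∉ X, Function.Injective s → s ∈ i.2.1.1.W →
      ∀ u : Fin i.2.2.2.1 → (Ix (D.m i.2.2.1) (D.b i.2.2.1) → ℂ),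
      (∀ a, Itg (D.m i.2.2.1) (D.b i.2.2.1) (D.t s i.2.2.1) (pnt (i.2.1.1.Y s) (i.2.2.2.2.1 a))
        (pnt (i.2.1.1.Y s) (i.2.2.2.2.2 a)) (u a)) →
      ∑ a, u a ∈ LQ (D.m i.2.2.1) (D.b i.2.2.1) (D.t s i.2.2.1) →
      ∃ ε > 0, ball s ε ⊆ i.2.1.1.W ∧ (∀ s' ∈ ball s ε, Function.Injective s' ∧
        D.t s' i.2.2.1 ∈ ball (D.t s i.2.2.1)
          ((Φ _ _ _ (h.cv i.2.2.1)).ρ (D.t s i.2.2.1))) ∧
        ∃ V : Fin i.2.2.2.1 → (Fin p → ℂ) → (Ix (D.m i.2.2.1) (D.b i.2.2.1) → ℂ),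
          (∀ a, DifferentiableOn ℂ (V a) (ball s ε)) ∧ (∀ a, V a s = u a) ∧
          (∀ s' ∈ ball s ε, ∀ a,
            Itg (D.m i.2.2.1) (D.b i.2.2.1) (D.t s' i.2.2.1)
              (pnt (i.2.1.1.Y s') (i.2.2.2.2.1 a)) (pnt (i.2.1.1.Y s') (i.2.2.2.2.2 a))
              (V a s')) ∧
          ∀ s' ∈ ball s ε, ∑ a, V a s' =
            (Φ _ _ _ (h.cv i.2.2.1)).τ (D.t s i.2.2.1) (D.t s' i.2.2.1) (∑ a, u a)) := by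
    rintro ⟨K, g, n, k, Q', Q⟩
    by_cases hst : ∀ s' ∈ g.1.W, Function.Injective s' → ∀ a,
        pnt (g.1.Y s') (Q' a) ∈ Pts (D.m n) (D.b n) (D.t s' n) ∧
        pnt (g.1.Y s') (Q a) ∈ Pts (D.m n) (D.b n) (D.t s' n)
    · obtain ⟨X, hXm, hX⟩ := Bai_aux.fixed hF hG hR hL hInt hT Φ p N D h g.1 n k Q' Q hst
      exact ⟨X, hXm, fun _ => hX⟩
    · exact ⟨∅, IsMeagre.empty, fun h' => absurd h' hst⟩
  choose X hXm hX using hX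
  refine ⟨⋃ i : ι, X i, isMeagre_iUnion hXm, ?_⟩
  intro s hs hsi K g hg hsW n k Q' Q hst u hu hus
  have hs' : s ∉ X ⟨K, ⟨g, hg⟩, n, k, Q', Q⟩ := fun h' => hs (Set.mem_iUnion.2 ⟨_, h'⟩)
  exact hX ⟨K, ⟨g, hg⟩, n, k, Q', Q⟩ hst s hs' hsi hsW u hu hus

end TATE.MG
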