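import Pool.Agent.Lib.TATE.MG.Spec

/-!
# PROJECT TATE, package MG, module Coc: the cocycle relation of the transport
-/

set_option autoImplicit false

open Topology Metric

noncomputable section

namespace TATE.MG

open HC HC.CC SEJ TATE

namespace Coc_aux

/-- The transport respects the rational lattices. -/
theorem lat {m r : ℕ} {b : Fin (r + 1) → ℕ} (Φ : FamD m b) {t₀ t' : Fin (r + 1) → ℂ}
    (ht₀ : Function.Injective t₀) (ht' : t' ∈ ball t₀ (Φ.ρ t₀)) {v : Ix m b → ℂ}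
    (hv : v ∈ LQ m b t₀) : Φ.τ t₀ t' v ∈ LQ m b t' := by
  obtain ⟨k, hk, hkv⟩ := hv
  refine ⟨k, hk, ?_⟩
  have h1 : Φ.τ t₀ t' (k • v) ∈ LZ m b t' := by
    rw [← Φ.latZ t₀ ht₀ t' ht']
    exact ⟨k • v, hkv, rfl⟩
  rwa [map_nsmul] at h1

end Coc_aux

open Coc_aux in
theorem tCoc : S_Coc := by
  intro hRig m r b Φ t₀ ht₀ t₁ ht₁
  have hinj : Function.Injective t₁ := Φ.dom t₀ ht₀ t₁ ht₁
  obtain ⟨ε₁, hε₁, h1⟩ := Metric.isOpen_iff.mp isOpen_ball t₁ ht₁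
  have hε : 0 < min ε₁ (Φ.ρ t₁) := lt_min hε₁ (Φ.rpos t₁ hinj)
  have s1 : ball t₁ (min ε₁ (Φ.ρ t₁)) ⊆ ball t₀ (Φ.ρ t₀) :=
    (ball_subset_ball (min_le_left _ _)).trans h1
  have s2 : ball t₁ (min ε₁ (Φ.ρ t₁)) ⊆ ball t₁ (Φ.ρ t₁) := ball_subset_ball (min_le_right _ _)
  refine ⟨min ε₁ (Φ.ρ t₁), hε, s1, s2, ?_⟩
  intro t₂ ht₂ v
  have hspan : v ∈ Submodule.span ℝ (LQ m b t₀) := by
    rw [Φ.spn t₀ ht₀]
    exact Submodule.mem_top
  induction hspan using Submodule.span_induction with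
  | mem v hv =>
    obtain ⟨μ, _, hμ, _⟩ := hRig m r b Φ (Fin (r + 1) → ℂ) (ball t₁ (min ε₁ (Φ.ρ t₁))) id t₁
      (fun t' => Φ.τ t₀ t' v) (convex_ball t₁ _).isPreconnected ⟨t₁, mem_ball_self hε⟩
      continuousOn_id hinj (fun ξ hξ => s2 hξ)
      ((Φ.hol t₀ ht₀ v).continuousOn.mono s1) (fun ξ hξ => lat Φ ht₀ (s1 hξ) hv)
    have e1 : Φ.τ t₀ t₁ v = μ := by
      have h := hμ t₁ (mem_ball_self hε)
      have h' : Φ.τ t₀ t₁ v = Φ.τ t₁ t₁ μ := h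
      rw [h', Φ.one t₁ hinj]
    rw [e1]
    exact (hμ t₂ ht₂).symm
  | zero => simp only [map_zero]
  | add x y _ _ ihx ihy => simp only [map_add, ihx, ihy]
  | smul c x _ ih => simp only [map_smul, ih]

end TATE.MG
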