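import Pool.Agent.Lib.TATE.MG.Spec

/-!
# PROJECT TATE, package MG: absorbing the period at the end
-/

set_option autoImplicit false

open Topology Metric

noncomputable section

namespace TATE.MG

open HC HC.CC SEJ TATE

/-- **End**: ABSORBING THE PERIOD. -/
theorem tEnd : S_End := by
  intro hLz hT p N D hD s w M hs n K k Q' Q hk η c hG
  obtain ⟨ε, hε, -, V, -, hV⟩ := hG
  have h0 : ln s w 0 = s := by
    funext i
    simp [ln]
  have hb : (0 : ℂ) ∉ Bd s w := by
    intro h
    apply h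
    rw [h0]
    exact hs
  obtain ⟨h1, h2⟩ := hV 0 (mem_ball_self hε)
  rw [h0] at h1 h2
  rw [M.one 0 hb c] at h2
  have hti : Function.Injective (D.t s n) := (hT p N D hD n).2.2.1 s hs
  obtain ⟨z0, -, zneg, -, -, -, zabs⟩ := hLz (D.m n) (D.r n) (D.b n) (D.t s n) (hD.cv n) hti
  classical
  refine ⟨fun a => V a 0 + if a = ⟨0, hk⟩ then -(∑ a, V a 0 - c n) else 0, fun a => ?_, ?_⟩
  · refine zabs _ _ _ (h1 a) _ ?_
    split_ifs
    · exact zneg _ h2
    · exact z0
  · rw [Finset.sum_add_distrib, Finset.sum_ite_eq' Finset.univ (⟨0, hk⟩ : Fin k),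
      if_pos (Finset.mem_univ _)]
    abel

end TATE.MG
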