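import Pool.Agent.Lib.TATE.MG.Spec

/-!
# PROJECT TATE, package MG: adding the inverses `(y_i - t_j)⁻¹`
-/

set_option autoImplicit false

open Topology Metric

noncomputable section

namespace TATE.MG

open HC HC.CC SEJ TATE

namespace Ext_aux

variable {p r K' : ℕ}

theorem key_none (m : ℕ) (b : Fin (r + 1) → ℕ) (s s' : Fin p → ℂ) (i : Fin (r + 1) → Fin p)
    (y₁ y' : Fin K' → ℂ) (hspc : Spc s y₁ s' y') (a c : Fin K') (u : Fin (r + 1) → Fin K')
    (hu : ∀ j, y₁ (u j) = (y₁ a - pt s i none j)⁻¹)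
    (hP : (y₁ a, y₁ c) ∈ Pts m b (pt s i none)) : (y' a, y' c) ∈ Pts m b (pt s' i none) := by
  obtain ⟨h1, h2⟩ := hP
  refine ⟨?_, ?_⟩
  · rintro ⟨j, hj⟩
    have h3 := hspc ((MvPolynomial.X (Sum.inr a) - MvPolynomial.X (Sum.inl (i j))) *
      MvPolynomial.X (Sum.inr (u j)) - 1) (by
        simp only [map_sub, map_mul, map_one, MvPolynomial.aeval_X, Sum.elim_inr, Sum.elim_inl]
        rw [hu j]
        have h4 : y₁ a - s (i j) ≠ 0 := fun h => h1 ⟨j, (sub_eq_zero.mp h).symm⟩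
        show (y₁ a - s (i j)) * (y₁ a - s (i j))⁻¹ - 1 = 0
        rw [mul_inv_cancel₀ h4, sub_self])
    simp only [map_sub, map_mul, map_one, MvPolynomial.aeval_X, Sum.elim_inr, Sum.elim_inl] at h3
    have h5 : s' (i j) = y' a := hj
    rw [h5, sub_self, zero_mul, zero_sub] at h3
    exact one_ne_zero (neg_eq_zero.mp h3)
  · have h3 := hspc (MvPolynomial.X (Sum.inr c) ^ m -
      ∏ l, (MvPolynomial.X (Sum.inr a) - MvPolynomial.X (Sum.inl (i l))) ^ b l) (by
        simp only [map_sub, map_prod, map_pow, MvPolynomial.aeval_X, Sum.elim_inr, Sum.elim_inl]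
        exact sub_eq_zero.mpr h2)
    simp only [map_sub, map_prod, map_pow, MvPolynomial.aeval_X, Sum.elim_inr,
      Sum.elim_inl] at h3
    exact sub_eq_zero.mp h3

theorem key_some (m : ℕ) (b : Fin (r + 1) → ℕ) (s s' : Fin p → ℂ) (i : Fin (r + 1) → Fin p)
    (k : Fin p) (hk : ∀ j, i j ≠ k) (hs : Function.Injective s) (hs' : Function.Injective s')
    (y₁ y' : Fin K' → ℂ) (hspc : Spc s y₁ s' y') (a c : Fin K') (u : Fin (r + 1) → Fin K')
    (hu : ∀ j, y₁ (u j) = (y₁ a - pt s i (some k) j)⁻¹)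
    (hP : (y₁ a, y₁ c) ∈ Pts m b (pt s i (some k))) :
    (y' a, y' c) ∈ Pts m b (pt s' i (some k)) := by
  obtain ⟨h1, h2⟩ := hP
  have hd : ∀ j, s (i j) - s k ≠ 0 := fun j h => hk j (hs (sub_eq_zero.mp h))
  have hd' : ∀ j, s' (i j) - s' k ≠ 0 := fun j h => hk j (hs' (sub_eq_zero.mp h))
  refine ⟨?_, ?_⟩
  · rintro ⟨j, hj⟩
    have h3 := hspc ((MvPolynomial.X (Sum.inr a) *
      (MvPolynomial.X (Sum.inl (i j)) - MvPolynomial.X (Sum.inl k)) - 1) *
      MvPolynomial.X (Sum.inr (u j)) -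
      (MvPolynomial.X (Sum.inl (i j)) - MvPolynomial.X (Sum.inl k))) (by
        simp only [map_sub, map_mul, map_one, MvPolynomial.aeval_X, Sum.elim_inr, Sum.elim_inl]
        rw [hu j]
        have h4 : y₁ a - (s (i j) - s k)⁻¹ ≠ 0 := fun h => h1 ⟨j, (sub_eq_zero.mp h).symm⟩
        show (y₁ a * (s (i j) - s k) - 1) * (y₁ a - (s (i j) - s k)⁻¹)⁻¹ -
          (s (i j) - s k) = 0
        have h5 : y₁ a * (s (i j) - s k) - 1 =
            (s (i j) - s k) * (y₁ a - (s (i j) - s k)⁻¹) := by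
          rw [mul_sub (s (i j) - s k) (y₁ a), mul_inv_cancel₀ (hd j)]
          ring
        rw [h5, mul_assoc, mul_inv_cancel₀ h4, mul_one, sub_self])
    simp only [map_sub, map_mul, map_one, MvPolynomial.aeval_X, Sum.elim_inr, Sum.elim_inl] at h3
    have h5 : (s' (i j) - s' k)⁻¹ = y' a := hj
    rw [← h5, inv_mul_cancel₀ (hd' j), sub_self, zero_mul, zero_sub] at h3
    exact hd' j (neg_eq_zero.mp h3)
  · have hpr : ∀ (z : ℂ) (d : Fin (r + 1) → ℂ), (∀ l, d l ≠ 0) →
        ∏ l, (z * d l - 1) ^ b l = (∏ l, (z - (d l)⁻¹) ^ b l) * ∏ l, d l ^ b l := by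
      intro z d hd
      rw [← Finset.prod_mul_distrib]
      refine Finset.prod_congr rfl fun l _ => ?_
      rw [← mul_pow, sub_mul, inv_mul_cancel₀ (hd l)]
    have h3 := hspc (MvPolynomial.X (Sum.inr c) ^ m *
      ∏ l, (MvPolynomial.X (Sum.inl (i l)) - MvPolynomial.X (Sum.inl k)) ^ b l -
      ∏ l, (MvPolynomial.X (Sum.inr a) *
        (MvPolynomial.X (Sum.inl (i l)) - MvPolynomial.X (Sum.inl k)) - 1) ^ b l) (by
        simp only [map_sub, map_mul, map_prod, map_pow, map_one, MvPolynomial.aeval_X,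
          Sum.elim_inr, Sum.elim_inl]
        rw [hpr (y₁ a) (fun l => s (i l) - s k) hd]
        have h4 : y₁ c ^ m = ∏ l, (y₁ a - (s (i l) - s k)⁻¹) ^ b l := h2
        rw [h4, sub_self])
    simp only [map_sub, map_mul, map_prod, map_pow, map_one, MvPolynomial.aeval_X, Sum.elim_inr,
      Sum.elim_inl] at h3
    rw [hpr (y' a) (fun l => s' (i l) - s' k) hd', sub_eq_zero] at h3
    have h6 : ∏ l, (s' (i l) - s' k) ^ b l ≠ 0 :=
      Finset.prod_ne_zero_iff.mpr fun l _ => pow_ne_zero _ (hd' l)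
    exact mul_right_cancel₀ h6 h3

theorem alg_s (s : Fin p → ℂ) (l : Fin p) : AlgO s (s l) := by
  have h : s l ∈ IntermediateField.adjoin ℚ (Set.range s) :=
    IntermediateField.subset_adjoin ℚ _ ⟨l, rfl⟩
  exact isAlgebraic_algebraMap
    (⟨s l, h⟩ : IntermediateField.adjoin ℚ (Set.range s))

theorem alg_pt (s : Fin p → ℂ) (i : Fin (r + 1) → Fin p) (k : Option (Fin p))
    (j : Fin (r + 1)) : AlgO s (pt s i k j) := by
  cases k with
  | none => exact alg_s s (i j)
  | some k => exact ((alg_s s (i j)).sub (alg_s s k)).inv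

end Ext_aux

open Ext_aux in
/-- **Ext**: adding the inverses. -/
theorem tExt : S_Ext := by
  intro p N D hD s hs K y hy
  let I : Type := Fin K ⊕ (Σ n : Fin N, Fin K × Fin (D.r n + 1))
  let yt : I → ℂ := Sum.elim y fun x => (y x.2.1 - D.t s x.1 x.2.2)⁻¹
  let e : I ≃ Fin (Fintype.card I) := Fintype.equivFin I
  refine ⟨Fintype.card I, fun q => yt (e.symm q), fun i => e (Sum.inl i), ?_, ?_, ?_, ?_⟩
  · intro q
    show AlgO s (yt (e.symm q))
    rcases e.symm q with i | x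
    · exact hy i
    · exact ((hy x.2.1).sub (alg_pt s _ _ _)).inv
  · intro i
    show yt (e.symm (e (Sum.inl i))) = y i
    rw [Equiv.symm_apply_apply]
    rfl
  · intro s' y' hs' hspc n i j hP
    have hP' : (yt (e.symm (e (Sum.inl i))), yt (e.symm (e (Sum.inl j)))) ∈
        Pts (D.m n) (D.b n) (D.t s n) := by
      rw [Equiv.symm_apply_apply, Equiv.symm_apply_apply]
      exact hP
    have hu : ∀ l : Fin (D.r n + 1), yt (e.symm (e (Sum.inr ⟨n, i, l⟩))) =
        (yt (e.symm (e (Sum.inl i))) - D.t s n l)⁻¹ := by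
      intro l
      rw [Equiv.symm_apply_apply, Equiv.symm_apply_apply]
      rfl
    have hlt := hD.lt n
    unfold Dt.t at hP' hu ⊢
    cases hk : D.k n with
    | none =>
      rw [hk] at hP' hu
      exact key_none (D.m n) (D.b n) s s' (D.i n) _ y' hspc (e (Sum.inl i)) (e (Sum.inl j))
        (fun l => e (Sum.inr ⟨n, i, l⟩)) hu hP'
    | some k =>
      rw [hk] at hP' hu
      exact key_some (D.m n) (D.b n) s s' (D.i n) k (fun l => (hlt k hk l).ne) hs hs' _ y' hspc
        (e (Sum.inl i)) (e (Sum.inl j)) (fun l => e (Sum.inr ⟨n, i, l⟩)) hu hP'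
  · intro s' y' hspc f hf
    have h1 : ∀ (s₂ : Fin p → ℂ) (y₂ : Fin (Fintype.card I) → ℂ),
        MvPolynomial.aeval (Sum.elim s₂ y₂)
          (MvPolynomial.rename (Sum.map id fun i => e (Sum.inl i)) f) =
        MvPolynomial.aeval (Sum.elim s₂ fun i => y₂ (e (Sum.inl i))) f := by
      intro s₂ y₂
      rw [MvPolynomial.aeval_rename]
      congr 2
      funext x
      rcases x with x | x <;> rfl
    have h2 := hspc (MvPolynomial.rename (Sum.map id fun i => e (Sum.inl i)) f) (by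
      rw [h1]
      have h3 : (fun i => yt (e.symm (e (Sum.inl i)))) = y := by
        funext i
        rw [Equiv.symm_apply_apply]
        rfl
      show MvPolynomial.aeval (Sum.elim s fun i => yt (e.symm (e (Sum.inl i)))) f = 0
      rw [h3]
      exact hf)
    rw [h1] at h2
    exact h2

end TATE.MG
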