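import Pool.Agent.Lib.TATE.MG.Spec

set_option autoImplicit false

open Topology Metric

noncomputable section

namespace TATE.MG

open HC HC.CC SEJ TATE

namespace Int_aux

/-- Two coordinates of a holomorphic tuple. -/
lemma pnt_hol {X : Type} [NormedAddCommGroup X] [NormedSpace ℂ X] {K : ℕ} {Y : X → (Fin K → ℂ)}
    {W : Set X} (h : DifferentiableOn ℂ Y W) (q : Fin K × Fin K) :
    DifferentiableOn ℂ (fun x => pnt (Y x) q) W := by
  have h' := differentiableOn_pi.1 h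
  exact (h' q.1).prodMk (h' q.2)

end Int_aux

theorem tInt : S_Int := by
  intro FA2 TCo p N D hD n K q' q
  obtain ⟨-, hdiff, hinj, -, hline⟩ := TCo p N D hD n
  obtain ⟨-, -, -, -, h5, -⟩ := FA2 (D.m n) (D.r n) (D.b n) (hD.cv n)
  refine ⟨?_, ?_⟩
  · intro W Y hW hY hP s₀ hs₀ v₀ hI
    obtain ⟨U', hU'W, hU'o, hs₀U', v, hv, hv0, hvI⟩ := h5 p W s₀ (fun s => D.t s n)
      (fun s => pnt (Y s) q') (fun s => pnt (Y s) q) v₀ hW hs₀
      (hdiff.mono fun s hs => (hP s hs).1) (Int_aux.pnt_hol hY q') (Int_aux.pnt_hol hY q)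
      (fun ξ hξ => ⟨hinj ξ (hP ξ hξ).1, (hP ξ hξ).2.1, (hP ξ hξ).2.2⟩) hI
    obtain ⟨ε, hε, hball⟩ := Metric.isOpen_iff.1 hU'o s₀ hs₀U'
    exact ⟨ε, hε, hball.trans hU'W, v, hv.mono hball, hv0, fun s' hs' => hvI s' (hball hs')⟩
  · intro s w z₀ ε₀ η hε₀ hη hP v₀ hI
    obtain ⟨-, hBd⟩ := hline s w
    have hc : Continuous fun (z : ℂ) (_ : Fin 1) => z := continuous_pi fun _ => continuous_id
    have hcd : Differentiable ℂ fun (z : ℂ) (_ : Fin 1) => z :=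
      differentiable_pi.2 fun _ => differentiable_id
    have hpd : Differentiable ℂ fun ξ : Fin 1 → ℂ => ξ 0 := differentiable_apply 0
    have hU : IsOpen {ξ : Fin 1 → ℂ | ξ 0 ∈ ball z₀ ε₀} :=
      isOpen_ball.preimage (continuous_apply 0)
    have ht : DifferentiableOn ℂ (fun ξ : Fin 1 → ℂ => D.t (ln s w (ξ 0)) n)
        {ξ : Fin 1 → ℂ | ξ 0 ∈ ball z₀ ε₀} :=
      hBd.comp hpd.differentiableOn fun ξ hξ => by
        have := (hP (ξ 0) hξ).1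
        exact fun hn => hn this
    have hη' : DifferentiableOn ℂ (fun ξ : Fin 1 → ℂ => η (ξ 0))
        {ξ : Fin 1 → ℂ | ξ 0 ∈ ball z₀ ε₀} :=
      hη.comp hpd.differentiableOn fun ξ hξ => hξ
    obtain ⟨U', hU'W, hU'o, hz₀U', v, hv, hv0, hvI⟩ := h5 1 {ξ : Fin 1 → ℂ | ξ 0 ∈ ball z₀ ε₀}
      (fun _ => z₀) (fun ξ => D.t (ln s w (ξ 0)) n) (fun ξ => pnt (η (ξ 0)) q')
      (fun ξ => pnt (η (ξ 0)) q) v₀ hU (mem_ball_self hε₀) ht (Int_aux.pnt_hol hη' q')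
      (Int_aux.pnt_hol hη' q)
      (fun ξ hξ => ⟨hinj _ (hP (ξ 0) hξ).1, (hP (ξ 0) hξ).2.1, (hP (ξ 0) hξ).2.2⟩) hI
    obtain ⟨ε, hε, hball⟩ := Metric.isOpen_iff.1 (hU'o.preimage hc) z₀ hz₀U'
    refine ⟨min ε ε₀, lt_min hε hε₀, min_le_right _ _, fun z => v fun _ => z, ?_, hv0, ?_⟩
    · exact hv.comp hcd.differentiableOn fun z hz => hball (ball_subset_ball (min_le_left _ _) hz)
    · intro z hz
      exact hvI (fun _ => z) (hball (ball_subset_ball (min_le_left _ _) hz))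

end TATE.MG
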