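import Pool.Agent.Lib.TATE.MG.Spec

/-!
# TATE, package MG, module Lz: the groups of periods and the absorption of periods
-/

set_option autoImplicit false

open Topology Metric

noncomputable section

namespace TATE.MG

open HC HC.CC SEJ TATE

namespace Lz_aux

/-- There is a point on the curve. -/
theorem exists_pts {m r : ℕ} (b : Fin (r + 1) → ℕ) (t : Fin (r + 1) → ℂ) (hm : 0 < m) :
    ∃ P : ℂ × ℂ, P ∈ Pts m b t := by
  obtain ⟨x, hx⟩ := (Set.finite_range t).exists_notMem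
  obtain ⟨y, hy⟩ := IsAlgClosed.exists_pow_nat_eq (∏ j, (x - t j) ^ b j) hm
  exact ⟨(x, y), hx, hy⟩

end Lz_aux

open Lz_aux

theorem tLz : S_Lz := by
  intro hFA m r b t hC ht
  obtain ⟨h1, h2, h3, -, -, -⟩ := hFA m r b hC
  have hm : 0 < m := lt_of_lt_of_le (by norm_num) hC.1
  -- absorption
  have habs : ∀ P Q v, Itg m b t P Q v → ∀ l ∈ LZ m b t, Itg m b t P Q (v + l) := by
    rintro P Q v hv l ⟨R, hR⟩
    obtain ⟨-, hQ, -⟩ := h3 t ht P Q v hv
    obtain ⟨hR', -, -⟩ := h3 t ht R R l hR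
    obtain ⟨w, hw⟩ := h1 t ht Q hQ R hR'
    obtain ⟨-, -, hw'⟩ := h3 t ht Q R w hw
    have h := h2 t ht P R Q _ _ (h2 t ht P R R _ _ (h2 t ht P Q R _ _ hv hw) hR) hw'
    have he : v + w + l + -w = v + l := by abel
    rwa [he] at h
  have hzero : (0 : Ix m b → ℂ) ∈ LZ m b t := by
    obtain ⟨P, hP⟩ := exists_pts b t hm
    exact ⟨P, Itg.refl P hP⟩
  have hadd : ∀ u ∈ LZ m b t, ∀ v ∈ LZ m b t, u + v ∈ LZ m b t := by
    rintro u ⟨P, hP⟩ v hv
    exact ⟨P, habs P P u hP v hv⟩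
  have hneg : ∀ u ∈ LZ m b t, -u ∈ LZ m b t := by
    rintro u ⟨P, hP⟩
    exact ⟨P, (h3 t ht P P u hP).2.2⟩
  have hmul : ∀ u ∈ LZ m b t, ∀ n : ℕ, n • u ∈ LZ m b t := by
    intro u hu n
    induction n with
    | zero => rw [zero_smul]; exact hzero
    | succ n ih => rw [succ_nsmul]; exact hadd _ ih _ hu
  refine ⟨hzero, hadd, hneg, ?_, ?_, ?_, habs⟩
  · intro u hu
    refine ⟨1, one_ne_zero, ?_⟩
    rw [one_smul]
    exact hu
  · rintro u ⟨k, hk, hu⟩ v ⟨k', hk', hv⟩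
    refine ⟨k' * k, mul_ne_zero hk' hk, ?_⟩
    have he : (k' * k) • (u + v) = k' • (k • u) + k • (k' • v) := by
      rw [smul_add, mul_smul, mul_comm k' k, mul_smul]
    rw [he]
    exact hadd _ (hmul _ hu k') _ (hmul _ hv k)
  · rintro u ⟨k, hk, hu⟩
    refine ⟨k, hk, ?_⟩
    rw [smul_neg]
    exact hneg _ hu

end TATE.MG
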