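import Pool.Agent.Lib.TATE.MG.Spec

/-!
# TATE/MG/Mv: moving the base point

With fixed integrals `V` near `z₀` the local statement at a point `z₁` near `z₀` says that
`∑ V - M.τ z₁ z c n` is a period near `z₁`; by rigidity and the identity theorem this does not depend
on `z₁`.
-/

set_option autoImplicit false

open Topology Metric

noncomputable section

namespace TATE.MG

open HC HC.CC SEJ TATE

namespace Mv_aux

/-- A common radius. -/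
private theorem rad {k : ℕ} (e : Fin k → ℝ) (he : ∀ a, 0 < e a) (e₀ : ℝ) (he₀ : 0 < e₀) :
    ∃ ε > 0, ε ≤ e₀ ∧ ∀ a, ε ≤ e a := by
  have h1 : ∀ᶠ ε in 𝓝[>] (0 : ℝ), ∀ a, ε ≤ e a := by
    rw [Filter.eventually_all]
    intro a
    exact mem_nhdsWithin_of_mem_nhds (Iic_mem_nhds (he a))
  have h2 : ∀ᶠ ε in 𝓝[>] (0 : ℝ), ε ≤ e₀ := mem_nhdsWithin_of_mem_nhds (Iic_mem_nhds he₀)
  have h3 : ∀ᶠ ε in 𝓝[>] (0 : ℝ), 0 < ε := self_mem_nhdsWithin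
  obtain ⟨ε, h4, h5, h6⟩ := (h1.and (h2.and h3)).exists
  exact ⟨ε, h6, h5, h4⟩

/-- Sums of periods. -/
private theorem sumLZ {m r : ℕ} {b : Fin (r + 1) → ℕ} {t : Fin (r + 1) → ℂ}
    (h0 : (0 : Ix m b → ℂ) ∈ LZ m b t) (ha : ∀ u ∈ LZ m b t, ∀ v ∈ LZ m b t, u + v ∈ LZ m b t)
    {k : ℕ} (f : Fin k → (Ix m b → ℂ)) (hf : ∀ a, f a ∈ LZ m b t) : ∑ a, f a ∈ LZ m b t := by
  have h : ∀ S : Finset (Fin k), ∑ a ∈ S, f a ∈ LZ m b t := by
    intro S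
    induction S using Finset.induction_on with
    | empty => rw [Finset.sum_empty]; exact h0
    | insert a S haS ih => rw [Finset.sum_insert haS]; exact ha _ (hf a) _ ih
  exact h _

end Mv_aux

theorem tMv : S_Mv := by
  intro hFA rig coc lz int tco Φ p N D h s w M hM n K k Q' Q z₀ hz₀ η ε₀ hε₀ hη hpts
  set F := Φ _ _ _ (h.cv n) with hF
  set t : ℂ → (Fin (D.r n + 1) → ℂ) := fun z => D.t (ln s w z) n with ht
  obtain ⟨FA1, _, _, FA4, _, _⟩ := hFA _ _ _ (h.cv n)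
  obtain ⟨_, _, tinj, _, tln⟩ := tco p N D h n
  obtain ⟨_, htd⟩ := tln s w
  have htd' : DifferentiableOn ℂ t (Bd s w)ᶜ := htd
  have hinj : ∀ z, z ∉ Bd s w → Function.Injective (ln s w z) := by
    intro z hz
    by_contra hc
    exact hz hc
  have htinj : ∀ z, z ∉ Bd s w → Function.Injective (t z) := fun z hz => tinj _ (hinj z hz)
  have hr0 : 0 < M.r z₀ := M.rpos z₀ hz₀
  have hdom : ∀ z ∈ ball z₀ (M.r z₀), z ∉ Bd s w := M.dom z₀ hz₀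
  set ε₁ := min ε₀ (M.r z₀) with hε₁
  have hε₁0 : 0 < ε₁ := lt_min hε₀ hr0
  have hb1 : ball z₀ ε₁ ⊆ ball z₀ ε₀ := ball_subset_ball (min_le_left _ _)
  have hb2 : ball z₀ ε₁ ⊆ ball z₀ (M.r z₀) := ball_subset_ball (min_le_right _ _)
  -- the integrals near `z₀`
  have hex : ∀ a : Fin k, ∃ ε > 0, ∃ V : ℂ → (Ix (D.m n) (D.b n) → ℂ),
      DifferentiableOn ℂ V (ball z₀ ε) ∧ ∀ z ∈ ball z₀ ε,
        Itg (D.m n) (D.b n) (t z) (pnt (η z) (Q' a)) (pnt (η z) (Q a)) (V z) := by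
    intro a
    have hz : z₀ ∈ ball z₀ ε₀ := mem_ball_self hε₀
    obtain ⟨v, hv⟩ := FA1 (t z₀) (htinj z₀ hz₀) _ (hpts z₀ hz a).1 _ (hpts z₀ hz a).2
    obtain ⟨ε, hε, _, V, hV, _, hI⟩ := (int p N D h n K (Q' a) (Q a)).2 s w z₀ ε₁ η hε₁0
      (hη.mono hb1) (fun z hz => ⟨hinj z (hdom z (hb2 hz)), hpts z (hb1 hz) a⟩) v hv
    exact ⟨ε, hε, V, hV, hI⟩
  choose e he V hV hI using hex
  obtain ⟨ε, hε, hεε₁, hεe⟩ := Mv_aux.rad e he ε₁ hε₁0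
  have hbe : ∀ a, ball z₀ ε ⊆ ball z₀ (e a) := fun a => ball_subset_ball (hεe a)
  have hbr : ball z₀ ε ⊆ ball z₀ (M.r z₀) := (ball_subset_ball hεε₁).trans hb2
  have hnB : ∀ z ∈ ball z₀ ε, z ∉ Bd s w := fun z hz => hdom z (hbr hz)
  have htb : ∀ z ∈ ball z₀ ε, t z ∈ ball (t z₀) (F.ρ (t z₀)) := fun z hz =>
    hM.r z₀ hz₀ z (hbr hz) n
  have hτ : ∀ z ∈ ball z₀ ε, ∀ c, M.τ z₀ z c n = F.τ (t z₀) (t z) (c n) := fun z hz c =>
    hM.τ z₀ hz₀ z (hbr hz) c n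
  have htd2 : DifferentiableOn ℂ t (ball z₀ ε) := htd'.mono fun z hz => hnB z hz
  have hTd : ∀ v, DifferentiableOn ℂ (fun z => F.τ (t z₀) (t z) v) (ball z₀ ε) := by
    intro v
    exact (F.hol (t z₀) (htinj z₀ hz₀) v).comp htd2 htb
  have hVd : DifferentiableOn ℂ (fun z => ∑ a, V a z) (ball z₀ ε) :=
    DifferentiableOn.fun_sum fun a _ => (hV a).mono (hbe a)
  have hopen : ∀ z ∈ ball z₀ ε, ∀ᶠ z' in 𝓝 z, z' ∈ ball z₀ ε := fun z hz => isOpen_ball.mem_nhds hz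
  -- (A)
  have hA : ∀ c : D.V, ∀ z₁ ∈ ball z₀ ε,
      (∀ᶠ z in 𝓝 z₁, ∑ a, V a z - F.τ (t z₀) (t z) (c n) ∈ LZ (D.m n) (D.b n) (t z)) →
      ∀ z ∈ ball z₀ ε, ∑ a, V a z - F.τ (t z₀) (t z) (c n) ∈ LZ (D.m n) (D.b n) (t z) := by
    intro c z₁ hz₁ hev
    obtain ⟨δ, hδ, hδs⟩ := Metric.eventually_nhds_iff_ball.1 (hev.and (hopen z₁ hz₁))
    have hd : DifferentiableOn ℂ (fun z => ∑ a, V a z - F.τ (t z₀) (t z) (c n)) (ball z₀ ε) :=
      hVd.sub (hTd (c n))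
    have hsub : ball z₁ δ ⊆ ball z₀ ε := fun z hz => (hδs z hz).2
    obtain ⟨μ, hμ, hμ1, hμ2⟩ := rig _ _ _ F ℂ (ball z₁ δ) t (t z₀)
      (fun z => ∑ a, V a z - F.τ (t z₀) (t z) (c n)) (convex_ball z₁ δ).isPreconnected
      ⟨z₁, mem_ball_self hδ⟩ (htd2.continuousOn.mono hsub) (htinj z₀ hz₀)
      (fun z hz => htb z (hsub hz)) (hd.continuousOn.mono hsub)
      (fun z hz => (lz _ _ _ (t z) (h.cv n) (htinj z (hnB z (hsub hz)))).2.2.2.1 _ (hδs z hz).1)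
    have hμZ : μ ∈ LZ (D.m n) (D.b n) (t z₀) := hμ2 z₁ (mem_ball_self hδ)
      (hδs z₁ (mem_ball_self hδ)).1
    have heq : Set.EqOn (fun z => ∑ a, V a z - F.τ (t z₀) (t z) (c n))
        (fun z => F.τ (t z₀) (t z) μ) (ball z₀ ε) := by
      refine (hd.analyticOnNhd isOpen_ball).eqOn_of_preconnected_of_eventuallyEq
        ((hTd μ).analyticOnNhd isOpen_ball) (convex_ball z₀ ε).isPreconnected hz₁ ?_
      exact Filter.eventually_of_mem (ball_mem_nhds z₁ hδ) hμ1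
    intro z hz
    have h1 : ∑ a, V a z - F.τ (t z₀) (t z) (c n) = F.τ (t z₀) (t z) μ := heq hz
    rw [h1, ← F.latZ (t z₀) (htinj z₀ hz₀) (t z) (htb z hz)]
    exact ⟨μ, hμZ, rfl⟩
  -- the local statement in terms of `V`
  have hG : ∀ z₁ ∈ ball z₀ ε, ∀ c₁ : D.V, Gd D s w M n Q' Q z₁ η c₁ ↔
      ∀ᶠ z in 𝓝 z₁, ∑ a, V a z - M.τ z₁ z c₁ n ∈ LZ (D.m n) (D.b n) (t z) := by
    intro z₁ hz₁ c₁
    constructor
    · rintro ⟨δ, hδ, _, W, _, hW⟩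
      filter_upwards [ball_mem_nhds z₁ hδ, hopen z₁ hz₁] with z hz hz'
      have hti := htinj z (hnB z hz')
      obtain ⟨l0, ladd, _, _, _, _, _⟩ := lz _ _ _ (t z) (h.cv n) hti
      obtain ⟨hW1, hW2⟩ := hW z hz
      have h1 : ∀ a, V a z - W a z ∈ LZ (D.m n) (D.b n) (t z) := fun a =>
        FA4 (t z) hti _ _ _ (hI a z (hbe a hz')) _ (hW1 a)
      have h2 := ladd _ (Mv_aux.sumLZ l0 ladd (fun a => V a z - W a z) h1) _ hW2
      have h3 : ∑ a, (V a z - W a z) + (∑ a, W a z - M.τ z₁ z c₁ n) =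
          ∑ a, V a z - M.τ z₁ z c₁ n := by
        rw [Finset.sum_sub_distrib]
        abel
      rw [h3] at h2
      exact h2
    · intro hev
      have hr1 := M.rpos z₁ (hnB z₁ hz₁)
      obtain ⟨δ, hδ, hδs⟩ := Metric.eventually_nhds_iff_ball.1
        (hev.and ((hopen z₁ hz₁).and (ball_mem_nhds z₁ hr1)))
      refine ⟨δ, hδ, fun z hz => (hδs z hz).2.2, V, fun a =>
        (hV a).mono fun z hz => hbe a (hδs z hz).2.1, fun z hz =>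
        ⟨fun a => hI a z (hbe a (hδs z hz).2.1), (hδs z hz).1⟩⟩
  refine ⟨ε, hε, hbr, fun z₁ hz₁ c => ?_⟩
  have hz₀' : z₀ ∈ ball z₀ ε := mem_ball_self hε
  have h0 : Gd D s w M n Q' Q z₀ η c ↔
      ∀ z ∈ ball z₀ ε, ∑ a, V a z - F.τ (t z₀) (t z) (c n) ∈ LZ (D.m n) (D.b n) (t z) := by
    rw [hG z₀ hz₀' c]
    constructor
    · intro hev
      refine hA c z₀ hz₀' ?_
      filter_upwards [hev, hopen z₀ hz₀'] with z hz hz'
      rw [← hτ z hz' c]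
      exact hz
    · intro hall
      filter_upwards [hopen z₀ hz₀'] with z hz'
      rw [hτ z hz' c]
      exact hall z hz'
  have hcoc : ∀ᶠ z in 𝓝 z₁, M.τ z₁ z (M.τ z₀ z₁ c) n = F.τ (t z₀) (t z) (c n) := by
    obtain ⟨δ, hδ, _, _, hc⟩ := coc _ _ _ F (t z₀) (htinj z₀ hz₀) (t z₁) (htb z₁ hz₁)
    have hcont : ContinuousAt t z₁ := htd2.continuousOn.continuousAt (isOpen_ball.mem_nhds hz₁)
    have hr1 := M.rpos z₁ (hnB z₁ hz₁)
    filter_upwards [hcont (ball_mem_nhds (t z₁) hδ), ball_mem_nhds z₁ hr1] with z hz hz'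
    rw [hM.τ z₁ (hnB z₁ hz₁) z hz' _ n, hτ z₁ hz₁ c]
    exact hc (t z) hz (c n)
  rw [h0, hG z₁ hz₁]
  constructor
  · intro hev
    refine hA c z₁ hz₁ ?_
    filter_upwards [hev, hcoc] with z hz hz'
    rw [← hz']
    exact hz
  · intro hall
    filter_upwards [hopen z₁ hz₁, hcoc] with z hz hz'
    rw [hz']
    exact hall z hz

end TATE.MG
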