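import Pool.Agent.Lib.TATE.MG.Spec

/-!
# PROJECT TATE, package MG: propagation along the path
-/

set_option autoImplicit false

open Topology Metric

noncomputable section

namespace TATE.MG

open HC HC.CC SEJ TATE

namespace Pth_aux

theorem conn (a b : ℝ) (P : ℝ → Prop)
    (h : ∀ t1 ∈ Set.Icc a b, ∃ δ > 0, ∀ t ∈ Set.Icc a b, dist t t1 < δ → (P t ↔ P t1)) :
    ∀ t0 ∈ Set.Icc a b, P t0 → ∀ t ∈ Set.Icc a b, P t := by
  have hL : IsLocallyConstant (fun t : Set.Icc a b => P t) := by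
    rw [IsLocallyConstant.iff_eventually_eq]
    rintro ⟨t1, ht1⟩
    obtain ⟨δ, hδ, H⟩ := h t1 ht1
    rw [Metric.eventually_nhds_iff]
    refine ⟨δ, hδ, fun {y} hy => propext (H y y.2 ?_)⟩
    rw [Subtype.dist_eq] at hy
    exact hy
  intro t0 ht0 h0 t ht
  have hP : PreconnectedSpace (Set.Icc a b) := Subtype.preconnectedSpace isPreconnected_Icc
  have hE := hL.apply_eq_of_preconnectedSpace ⟨t0, ht0⟩ ⟨t, ht⟩
  exact hE.mp h0

section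

variable {p N : ℕ} (D : Dt p N) (s w : Fin p → ℂ) (M : Fml D.V (Bd s w)) (n : Fin N)
  {K k : ℕ} (Q' Q : Fin k → Fin K × Fin K)

/-- `Gd` depends only on the germ of `η`. -/
theorem Gd_congr (z₀ : ℂ) (η η' : ℂ → (Fin K → ℂ)) (c : D.V) (he : ∀ᶠ z in 𝓝 z₀, η z = η' z)
    (h : Gd D s w M n Q' Q z₀ η c) : Gd D s w M n Q' Q z₀ η' c := by
  obtain ⟨ε, hε, hb, V, hV, hI⟩ := h
  rw [Metric.eventually_nhds_iff] at he
  obtain ⟨ε', hε', he⟩ := he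
  have hs : ball z₀ (min ε ε') ⊆ ball z₀ ε := ball_subset_ball (min_le_left _ _)
  refine ⟨min ε ε', lt_min hε hε', hs.trans hb, V, fun a => (hV a).mono hs, ?_⟩
  intro z hz
  have hz' : dist z z₀ < ε' := lt_of_lt_of_le hz (min_le_right _ _)
  have e1 := he hz'
  obtain ⟨h1, h2⟩ := hI z (hs hz)
  refine ⟨fun a => ?_, h2⟩
  rw [← e1]
  exact h1 a

/-- Local uniqueness: the germ may be replaced. -/
theorem germ_iff (y : Fin K → ℂ) (D₀ : Set ℂ)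
    (hu : ∀ z₀ ∉ D₀, ∀ η η' : ℂ → (Fin K → ℂ), (∀ᶠ z in 𝓝 z₀, ContinuousAt η z ∧
        ContinuousAt η' z ∧ Spc s y (ln s w z) (η z) ∧ Spc s y (ln s w z) (η' z)) →
        η z₀ = η' z₀ → ∀ᶠ z in 𝓝 z₀, η z = η' z)
    (z₁ : ℂ) (ε₁ : ℝ) (η₁ : ℂ → (Fin K → ℂ)) (hd : DifferentiableOn ℂ η₁ (ball z₁ ε₁))
    (hS : ∀ z ∈ ball z₁ ε₁, Spc s y (ln s w z) (η₁ z)) (z₀ : ℂ) (hz₀ : z₀ ∈ ball z₁ ε₁)
    (hD : z₀ ∉ D₀) (c : D.V) :
    (∃ η, IsGm s w y z₀ η (η₁ z₀) ∧ Gd D s w M n Q' Q z₀ η c) ↔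
      Gd D s w M n Q' Q z₀ η₁ c := by
  constructor
  · rintro ⟨η, ⟨ε, hε, hη, hSη, hv⟩, hG⟩
    refine Gd_congr D s w M n Q' Q z₀ η η₁ c ?_ hG
    refine hu z₀ hD η η₁ ?_ hv
    have h1 : ∀ᶠ z in 𝓝 z₀, z ∈ ball z₀ ε := ball_mem_nhds z₀ hε
    have h2 : ∀ᶠ z in 𝓝 z₀, z ∈ ball z₁ ε₁ := isOpen_ball.mem_nhds hz₀
    filter_upwards [h1, h2] with z hz1 hz2
    exact ⟨(hη.differentiableAt (isOpen_ball.mem_nhds hz1)).continuousAt,
      (hd.differentiableAt (isOpen_ball.mem_nhds hz2)).continuousAt, hSη z hz1, hS z hz2⟩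
  · intro hG
    obtain ⟨ε, hε, hb⟩ := Metric.isOpen_iff.1 isOpen_ball z₀ hz₀
    exact ⟨η₁, ⟨ε, hε, hd.mono hb, fun z hz => hS z (hb hz), rfl⟩, hG⟩

end

end Pth_aux

open Pth_aux in
theorem tPth : S_Pth := by
  intro hMv Φ p N D h s w M hLn n K k y Q' Q hp D₀ hu γ z z' hγ φ hφ y' hy0 hct v hstart
  have key : ∀ t ∈ Set.Icc (0 : ℝ) 1, ∃ η, IsGm s w y (γ t) η (y' t) ∧
      Gd D s w M n Q' Q (γ t) η (φ t v) := by
    refine conn 0 1 (fun t => ∃ η, IsGm s w y (γ t) η (y' t) ∧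
      Gd D s w M n Q' Q (γ t) η (φ t v)) ?_ 0 (by constructor <;> norm_num) ?_
    · intro t₁ ht₁
      obtain ⟨ε₁, hε₁, δ₁, hδ₁, η₁, hη₁, hS₁, hγ₁⟩ := hct.loc t₁ ht₁
      rw [hy0] at hS₁
      have hm := hγ.mem t₁ ht₁
      have hB : γ t₁ ∉ Bd s w := fun h' => hm (Or.inl h')
      have hr := M.rpos (γ t₁) hB
      have hmin : 0 < min ε₁ (M.r (γ t₁)) := lt_min hε₁ hr
      obtain ⟨ε, hε, hsub, hmv⟩ := hMv Φ p N D h s w M hLn n K k Q' Q (γ t₁) hB η₁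
        (min ε₁ (M.r (γ t₁))) hmin (hη₁.mono (ball_subset_ball (min_le_left _ _))) (by
          intro x hx a
          have hx1 : x ∈ ball (γ t₁) ε₁ := ball_subset_ball (min_le_left _ _) hx
          have hx2 : x ∈ ball (γ t₁) (M.r (γ t₁)) := ball_subset_ball (min_le_right _ _) hx
          have hx3 : x ∉ Bd s w := M.dom (γ t₁) hB x hx2
          have hx4 : Function.Injective (ln s w x) := by
            by_contra hcon
            exact hx3 hcon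
          exact hp (ln s w x) (η₁ x) hx4 (hS₁ x hx1) a)
      obtain ⟨δ₂, hδ₂, hφ₂⟩ := hφ.loc t₁ ht₁
      obtain ⟨δ₃, hδ₃, hγ₃⟩ := Metric.continuous_iff.1 hγ.cont t₁ ε hε
      refine ⟨min δ₁ (min δ₂ δ₃), lt_min hδ₁ (lt_min hδ₂ hδ₃), ?_⟩
      have hloc : ∀ t ∈ Set.Icc (0 : ℝ) 1, dist t t₁ < min δ₁ (min δ₂ δ₃) →
          ((∃ η, IsGm s w y (γ t) η (y' t) ∧ Gd D s w M n Q' Q (γ t) η (φ t v)) ↔
            Gd D s w M n Q' Q (γ t₁) η₁ (φ t₁ v)) := by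
        intro t ht htd
        have hd1 : |t - t₁| < δ₁ := by
          rw [← Real.dist_eq]
          exact lt_of_lt_of_le htd (min_le_left _ _)
        have hd2 : |t - t₁| < δ₂ := by
          rw [← Real.dist_eq]
          exact lt_of_lt_of_le htd ((min_le_right _ _).trans (min_le_left _ _))
        have hd3 : dist t t₁ < δ₃ :=
          lt_of_lt_of_le htd ((min_le_right _ _).trans (min_le_right _ _))
        obtain ⟨g1, g2⟩ := hγ₁ t ht hd1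
        obtain ⟨-, g3⟩ := hφ₂ t ht hd2
        have g4 : γ t ∈ ball (γ t₁) ε := hγ₃ t hd3
        have g5 : γ t ∉ D₀ := fun h' => hγ.mem t ht (Or.inr h')
        rw [g2, g3 v, ← hmv (γ t) g4 (φ t₁ v)]
        exact germ_iff D s w M n Q' Q y D₀ hu (γ t₁) ε₁ η₁ hη₁ hS₁ (γ t) g1 g5 _
      have h1 := hloc t₁ ht₁ (by
        rw [dist_self]
        exact lt_min hδ₁ (lt_min hδ₂ hδ₃))
      intro t ht htd
      exact (hloc t ht htd).trans h1.symm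
    · show ∃ η, IsGm s w y (γ 0) η (y' 0) ∧ Gd D s w M n Q' Q (γ 0) η (φ 0 v)
      rw [hγ.src, hy0, hφ.zero]
      exact hstart
  have h1 := key 1 (by constructor <;> norm_num)
  rw [hγ.tgt] at h1
  exact h1

end TATE.MG
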