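import Pool.Agent.Lib.TATE.MG.Spec

/-!
# PROJECT TATE, MG/Rig: continuous sections of the lattice are flat
-/

set_option autoImplicit false

open Topology Metric

noncomputable section

namespace TATE.MG

open HC HC.CC SEJ TATE

theorem tRig : S_Rig := by
  intro hInv m r b Φ X _ U t t₀ h hU hne ht ht₀ hball hh hLQ
  set g : X → (Ix m b → ℂ) := fun ξ => (Φ.τ t₀ (t ξ)).symm (h ξ) with hg
  have hcont : ContinuousOn g U := by
    refine hInv X (Ix m b → ℂ) U (fun ξ => Φ.τ t₀ (t ξ)) h (fun v => ?_) hh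
    exact (Φ.hol t₀ ht₀ v).continuousOn.comp ht (fun ξ hξ => hball ξ hξ)
  have hLZ : ∀ ξ ∈ U, ∀ v, v ∈ LZ m b (t ξ) → (Φ.τ t₀ (t ξ)).symm v ∈ LZ m b t₀ := by
    intro ξ hξ v hv
    rw [← Φ.latZ t₀ ht₀ (t ξ) (hball ξ hξ)] at hv
    obtain ⟨l, hl, rfl⟩ := hv
    rw [LinearEquiv.symm_apply_apply]
    exact hl
  have hgLQ : ∀ ξ ∈ U, g ξ ∈ LQ m b t₀ := by
    intro ξ hξ
    obtain ⟨k, hk, hv⟩ := hLQ ξ hξ
    refine ⟨k, hk, ?_⟩
    have h1 := hLZ ξ hξ _ hv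
    rwa [map_nsmul] at h1
  have hsub : (g '' U).Subsingleton := by
    have h1 : IsPreconnected (g '' U) := hU.image g hcont
    have h2 : g '' U ⊆ LQ m b t₀ := by
      rintro _ ⟨ξ, hξ, rfl⟩
      exact hgLQ ξ hξ
    exact (Φ.cnt t₀ ht₀).isTotallyDisconnected _ h2 h1
  obtain ⟨ξ₀, hξ₀⟩ := hne
  have hconst : ∀ ξ ∈ U, g ξ = g ξ₀ := fun ξ hξ =>
    hsub (Set.mem_image_of_mem g hξ) (Set.mem_image_of_mem g hξ₀)
  refine ⟨g ξ₀, hgLQ ξ₀ hξ₀, fun ξ hξ => ?_, fun ξ hξ hz => ?_⟩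
  · rw [← hconst ξ hξ, hg]
    exact (LinearEquiv.apply_symm_apply _ _).symm
  · rw [← hconst ξ hξ]
    exact hLZ ξ hξ _ hz

end TATE.MG
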