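import Pool.Agent.Lib.TATE.MG.Spec

/-!
# PROJECT TATE, package MG: the start of the continuation (`S_Stt`)
-/

set_option autoImplicit false

open Topology Metric

noncomputable section

namespace TATE.MG

open HC HC.CC SEJ TATE

namespace Stt_aux

theorem ln_zero {p : ℕ} (s w : Fin p → ℂ) : ln s w 0 = s := by
  funext i
  simp [ln]

theorem ln_diff {p : ℕ} (s w : Fin p → ℂ) : Differentiable ℂ (fun z => ln s w z) := by
  rw [differentiable_pi]
  intro i
  exact (differentiable_const _).add (differentiable_id.mul (differentiable_const _))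

theorem zero_not_mem {p : ℕ} (s w : Fin p → ℂ) (hs : Function.Injective s) : (0 : ℂ) ∉ Bd s w := by
  intro h
  apply h
  rw [ln_zero]
  exact hs

/-- A small disc of the line is in the ball. -/
theorem exists_disc {p : ℕ} (s w : Fin p → ℂ) (ε R : ℝ) (hε : 0 < ε) (hR : 0 < R) :
    ∃ δ > 0, ball (0 : ℂ) δ ⊆ ball 0 R ∧ ∀ z ∈ ball (0 : ℂ) δ, ln s w z ∈ ball s ε := by
  have hc : Continuous (fun z => ln s w z) := (ln_diff s w).continuous
  have h1 : (fun z => ln s w z) ⁻¹' ball s ε ∈ 𝓝 (0 : ℂ) := by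
    apply hc.continuousAt.preimage_mem_nhds
    rw [ln_zero]
    exact ball_mem_nhds s hε
  obtain ⟨δ, hδ, h2⟩ := Metric.mem_nhds_iff.mp h1
  refine ⟨min δ R, lt_min hδ hR, ball_subset_ball (min_le_right _ _), fun z hz => ?_⟩
  exact h2 (ball_subset_ball (min_le_left _ _) hz)

end Stt_aux

/-- **Stt**: THE START. -/
theorem tStt : S_Stt := by
  intro lz hTCo Φ p N D h s w M hM hs K y g hsg hgy hspc n k Q' Q u v huv hV
  obtain ⟨ε, hε, hεW, V, hVd, hVs, hVI, hVτ⟩ := hV
  have h0 : (0 : ℂ) ∉ Bd s w := Stt_aux.zero_not_mem s w hs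
  obtain ⟨δ, hδ, hδr, hδb⟩ := Stt_aux.exists_disc s w ε (M.r 0) hε (M.rpos 0 h0)
  have hd : DifferentiableOn ℂ (fun z => ln s w z) (ball (0 : ℂ) δ) :=
    (Stt_aux.ln_diff s w).differentiableOn
  refine ⟨fun z => g.Y (ln s w z), ⟨δ, hδ, ?_, ?_, ?_⟩, δ, hδ, hδr, fun a z => V a (ln s w z),
    ?_, ?_⟩
  · exact g.hol.comp hd (fun z hz => hεW (hδb z hz))
  · intro z hz
    exact hspc _ (hεW (hδb z hz))
  · change g.Y (ln s w 0) = y
    rw [Stt_aux.ln_zero, hgy]
  · intro a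
    exact (hVd a).comp hd (fun z hz => hδb z hz)
  · intro z hz
    refine ⟨fun a => hVI _ (hδb z hz) a, ?_⟩
    have hz' : z ∉ Bd s w := M.dom 0 h0 z (hδr hz)
    have hinj : Function.Injective (ln s w z) := by
      by_contra hcon
      exact hz' hcon
    have h1 := hM.τ 0 h0 z (hδr hz) v n
    rw [Stt_aux.ln_zero] at h1
    have h2 := hVτ _ (hδb z hz)
    rw [huv] at h2
    have h3 : ∑ a, V a (ln s w z) - M.τ 0 z v n = 0 := by
      rw [h1, h2, sub_self]
    change ∑ a, V a (ln s w z) - M.τ 0 z v n ∈ _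
    rw [h3]
    exact (lz _ _ _ _ (h.cv n) ((hTCo p N D h n).2.2.1 _ hinj)).1

end TATE.MG
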