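import Pool.Agent.Lib.TATE.MG.Spec

set_option autoImplicit false

open Topology Metric

noncomputable section

namespace TATE.MG

open HC HC.CC SEJ TATE

namespace TCo_aux

private theorem isOpen_inj (p : ℕ) : IsOpen {s : Fin p → ℂ | Function.Injective s} := by
  have h : {s : Fin p → ℂ | Function.Injective s} =
      ⋂ i : Fin p, ⋂ j : Fin p, {s : Fin p → ℂ | i ≠ j → s i ≠ s j} := by
    ext s
    simp only [Set.mem_ofPred_eq, Set.mem_iInter]
    constructor
    · intro h i j hij he
      exact hij (h he)
    · intro h i j he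
      by_contra hij
      exact h i j hij he
  rw [h]
  refine isOpen_iInter_of_finite fun i => isOpen_iInter_of_finite fun j => ?_
  by_cases hij : i = j
  · have : {s : Fin p → ℂ | i ≠ j → s i ≠ s j} = Set.univ := by
      ext s
      simp [hij]
    rw [this]
    exact isOpen_univ
  · have : {s : Fin p → ℂ | i ≠ j → s i ≠ s j} = {s : Fin p → ℂ | s i ≠ s j} := by
      ext s
      simp [hij]
    rw [this]
    exact isOpen_ne_fun (continuous_apply i) (continuous_apply j)

private theorem diff_t {p N : ℕ} (D : Dt p N) (hD : D.ok) (n : Fin N) :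
    DifferentiableOn ℂ (fun s : Fin p → ℂ => D.t s n) {s | Function.Injective s} := by
  rw [differentiableOn_pi]
  intro j
  cases hk : D.k n with
  | none =>
    have : (fun s : Fin p → ℂ => D.t s n j) = fun s => s (D.i n j) := by
      funext s
      simp [Dt.t, hk, HC.CC.pt]
    rw [this]
    exact (differentiable_apply (D.i n j)).differentiableOn
  | some l =>
    have : (fun s : Fin p → ℂ => D.t s n j) = fun s => (s (D.i n j) - s l)⁻¹ := by
      funext s
      simp [Dt.t, hk, HC.CC.pt]
    rw [this]
    refine DifferentiableOn.inv ?_ ?_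
    · exact ((differentiable_apply (D.i n j)).sub (differentiable_apply l)).differentiableOn
    · intro s hs he
      have h1 : s (D.i n j) = s l := sub_eq_zero.mp he
      exact (ne_of_lt (hD.lt n l hk j)) (hs h1)

private theorem inj_t {p N : ℕ} (D : Dt p N) (hD : D.ok) (n : Fin N) (s : Fin p → ℂ)
    (hs : Function.Injective s) : Function.Injective (D.t s n) := by
  intro i j hij
  cases hk : D.k n with
  | none =>
    have h1 : s (D.i n i) = s (D.i n j) := by
      simpa [Dt.t, hk, HC.CC.pt] using hij
    exact hD.inj n (hs h1)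
  | some l =>
    have h1 : (s (D.i n i) - s l)⁻¹ = (s (D.i n j) - s l)⁻¹ := by
      simpa [Dt.t, hk, HC.CC.pt] using hij
    have h2 := inv_inj.mp h1
    have h3 : s (D.i n i) = s (D.i n j) := by
      have := sub_left_injective h2
      exact this
    exact hD.inj n (hs h3)

private theorem diff_ln {p : ℕ} (s w : Fin p → ℂ) : Differentiable ℂ (ln s w) := by
  unfold ln
  fun_prop

end TCo_aux

open TCo_aux in
theorem tTCo : S_TCo := by
  intro p N D hD n
  refine ⟨isOpen_inj p, diff_t D hD n, fun s hs => inj_t D hD n s hs, ?_, ?_⟩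
  · intro s₀ hs₀ ρ hρ
    have hc : ContinuousAt (fun s : Fin p → ℂ => D.t s n) s₀ :=
      ((diff_t D hD n).differentiableAt ((isOpen_inj p).mem_nhds hs₀)).continuousAt
    have h1 : ∀ᶠ s' in 𝓝 s₀, D.t s' n ∈ ball (D.t s₀ n) ρ :=
      hc (ball_mem_nhds _ hρ)
    have h2 : ∀ᶠ s' in 𝓝 s₀, Function.Injective s' := (isOpen_inj p).mem_nhds hs₀
    obtain ⟨ε, hε, h⟩ := Metric.eventually_nhds_iff_ball.mp (h2.and h1)
    exact ⟨ε, hε, h⟩
  · intro s w
    have hB : (Bd s w)ᶜ = (ln s w) ⁻¹' {s | Function.Injective s} := by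
      ext z
      simp [Bd]
    rw [hB]
    refine ⟨(isOpen_inj p).preimage (diff_ln s w).continuous, ?_⟩
    exact (diff_t D hD n).comp (diff_ln s w).differentiableOn (fun z hz => hz)

end TATE.MG
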