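import Pool.Agent.Lib.TATE.MG.Spec

/-!
# PROJECT TATE, package MG: the zero vector stays zero (helper76)
-/

set_option autoImplicit false

open Topology Metric

noncomputable section

namespace TATE.MG

open HC HC.CC SEJ TATE

/-- A property of the points of the unit interval which does not change locally does not change. -/
private theorem Zer_aux.conn (P : ℝ → Prop)
    (h : ∀ t ∈ Set.Icc (0 : ℝ) 1, ∃ ε > 0, ∀ t' ∈ Set.Icc (0 : ℝ) 1, |t' - t| < ε → (P t' ↔ P t))
    (h0 : P 0) : P 1 := by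
  have : PreconnectedSpace (Set.Icc (0 : ℝ) 1) := Subtype.preconnectedSpace isPreconnected_Icc
  have hlc : IsLocallyConstant (fun t : Set.Icc (0 : ℝ) 1 => P t.1) := by
    rw [IsLocallyConstant.iff_eventually_eq]
    intro t
    obtain ⟨ε, hε, hP⟩ := h t.1 t.2
    have : ∀ᶠ t' : Set.Icc (0 : ℝ) 1 in 𝓝 t, t' ∈ ball t ε := ball_mem_nhds t hε
    filter_upwards [this] with t' ht'
    exact propext (hP t'.1 t'.2 (by rw [mem_ball, Subtype.dist_eq, Real.dist_eq] at ht'; exact ht'))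
  have := hlc.apply_eq_of_preconnectedSpace ⟨0, by simp⟩ ⟨1, by simp⟩
  exact this ▸ h0

/-- **Zer**: the zero vector stays zero. -/
theorem tZer : S_Zer := by
  intro Φ p N D h s w M hM n γ z z' hγ φ hφ v hv
  refine Zer_aux.conn (fun t => φ t v n = 0) ?_ (by
    show φ 0 v n = 0
    rw [hφ.zero v]; exact hv)
  intro t ht
  obtain ⟨ε, hε, hloc⟩ := hφ.loc t ht
  refine ⟨ε, hε, fun t' ht' hd => ?_⟩
  obtain ⟨hb, hτ⟩ := hloc t' ht' hd
  show φ t' v n = 0 ↔ φ t v n = 0
  rw [hτ v, hM.τ (γ t) (hγ.mem t ht) (γ t') hb (φ t v) n]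
  exact LinearEquiv.map_eq_zero_iff _

end TATE.MG
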