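import Pool.Agent.Lib.TATE.MG.Inv
import Pool.Agent.Lib.TATE.MG.Rig
import Pool.Agent.Lib.TATE.MG.Coc
import Pool.Agent.Lib.TATE.MG.Lz
import Pool.Agent.Lib.TATE.MG.Ext
import Pool.Agent.Lib.TATE.MG.TCo
import Pool.Agent.Lib.TATE.MG.Int
import Pool.Agent.Lib.TATE.MG.Bai
import Pool.Agent.Lib.TATE.MG.Mv
import Pool.Agent.Lib.TATE.MG.Pth
import Pool.Agent.Lib.TATE.MG.Zer
import Pool.Agent.Lib.TATE.MG.End
import Pool.Agent.Lib.TATE.MG.Stt
import Pool.Agent.Lib.TATE.MG.Fin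
import Pool.Agent.Lib.TATE.GA.Main

/-!
# PROJECT TATE, package MG (helper7): the theorem
-/

set_option autoImplicit false

noncomputable section

namespace TATE.MG

open HC HC.CC SEJ TATE

/-- **MG**, from FA2. -/
theorem cMG (hFA2 : StmtFA2) : StmtMG :=
  MG_of tInv tRig tCoc tLz tExt tInt tTCo tBai tMv tPth tZer tEnd tStt tFin hFA2 GA.cGA2 GA.cGA3 GA.cGA4

end TATE.MG
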