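import Pool.Agent.Lib.TATE.MG.Spec

/-!
# PROJECT TATE, package MG: assembly of `StmtMG` (helper99)
-/

set_option autoImplicit false

open Topology Metric

noncomputable section

namespace TATE.MG

open HC HC.CC SEJ TATE

namespace Fin_aux

/-- The end points of an integral lie on the curve. -/
lemma itg_pts {m r : ℕ} {b : Fin (r + 1) → ℕ} {t : Fin (r + 1) → ℂ} {P Q : ℂ × ℂ}
    {v : Ix m b → ℂ} (h : Itg m b t P Q v) : P ∈ Pts m b t ∧ Q ∈ Pts m b t := by
  induction h with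
  | refl h => exact ⟨h, h⟩
  | @step Q R v w h h' ih =>
    refine ⟨ih.1, ?_⟩
    obtain ⟨y, hy, h0, h1, hm, -⟩ := h'
    have h2 := hm 1 ⟨zero_le_one, le_rfl⟩
    have h3 : (Q.1 + ((1 : ℝ) : ℂ) * (R.1 - Q.1), y 1) = R := by
      rw [h1]
      ext1
      · simp
      · rfl
    rw [h3] at h2
    exact h2

/-- A path outside the larger set is a path outside the smaller set. -/
lemma isPth_mono {F F' : Set ℂ} (hF : F ⊆ F') {γ : ℝ → ℂ} {z z' : ℂ} (h : IsPth F' γ z z') :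
    IsPth F γ z z' :=
  ⟨h.cont, h.src, h.tgt, fun t ht h' => h.mem t ht (hF h')⟩

end Fin_aux

open Fin_aux in
theorem tFin : S_Fin := by
  intro FA2 GA2 GA4 Bai Stt Pth End Zer Ext Φ p N D h
  choose G hGc hG using GA2 p
  obtain ⟨X, hX, hBai⟩ := Bai Φ p N D h G hGc
  refine ⟨X ∪ {s | ¬ AlgebraicIndependent ℚ s}, hX.union (GA4 p), ?_⟩
  intro s hs
  have hsX : s ∉ X := fun h' => hs (Or.inl h')
  have hai : AlgebraicIndependent ℚ s := by
    by_contra h'
    exact hs (Or.inr h')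
  have hinj : Function.Injective s := hai.injective
  refine ⟨hinj, hai, ?_⟩
  intro K y hy w M hM
  obtain ⟨K', y₁, ι, hy₁, hι, hE1, hE2⟩ := Ext p N D h s hinj K y hy
  obtain ⟨g, hgG, hsW, hgs, hgSpc, hgw⟩ := hG K' s hai y₁ hy₁
  obtain ⟨D₀, hD₀c, h0, huniq, hcont⟩ := hgw w
  refine ⟨D₀, hD₀c, h0, ?_⟩
  intro γ hγ φ hφ
  obtain ⟨y₁', hy0, hct, -, hend⟩ := hcont γ 0 (isPth_mono Set.subset_union_right hγ)
  obtain ⟨σ, hσ, hσe⟩ := hend rfl
  have hyι : (fun i => y₁ (ι i)) = y := funext hι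
  have hy1 : ∀ i, y₁' 1 (ι i) = σ (y i) := fun i => by rw [hσe, hι]
  refine ⟨fun t i => y₁' t (ι i), σ, ?_, ⟨?_⟩, hσ, hy1, ?_⟩
  · simp only [hy0]
    exact hyι
  · intro t ht
    obtain ⟨ε, hε, δ, hδ, η, hη, hS, hl⟩ := hct.loc t ht
    refine ⟨ε, hε, δ, hδ, fun z i => η z (ι i), ?_, ?_, ?_⟩
    · rw [differentiableOn_pi] at hη ⊢
      intro i
      exact hη (ι i)
    · intro z hz
      have h1 := hS z hz
      rw [hy0] at h1 ⊢
      rw [hyι]
      exact hE2 _ _ h1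
    · intro t' ht' htt
      obtain ⟨h1, h2⟩ := hl t' ht' htt
      refine ⟨h1, ?_⟩
      rw [h2]
  · intro n k Q' Q u v hu hv hsum
    rcases Nat.eq_zero_or_pos k with rfl | hk
    · refine ⟨u, fun a => a.elim0, ?_⟩
      have h1 : v n = 0 := by
        rw [← hsum]
        exact Finset.sum_eq_zero fun a _ => a.elim0
      rw [Zer Φ p N D h s w M hM n γ 0 0 (isPth_mono Set.subset_union_left hγ) φ hφ v h1]
      exact Finset.sum_eq_zero fun a _ => a.elim0
    · let q' : Fin k → Fin K' × Fin K' := fun a => (ι (Q' a).1, ι (Q' a).2)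
      let q : Fin k → Fin K' × Fin K' := fun a => (ι (Q a).1, ι (Q a).2)
      have hq' : ∀ a, pnt y₁ (q' a) = (y (Q' a).1, y (Q' a).2) := fun a => by
        simp only [pnt, q', hι]
      have hq : ∀ a, pnt y₁ (q a) = (y (Q a).1, y (Q a).2) := fun a => by
        simp only [pnt, q, hι]
      have hp : ∀ (s' : Fin p → ℂ) (y' : Fin K' → ℂ), Function.Injective s' → Spc s y₁ s' y' →
          ∀ a, pnt y' (q' a) ∈ Pts (D.m n) (D.b n) (D.t s' n) ∧
            pnt y' (q a) ∈ Pts (D.m n) (D.b n) (D.t s' n) := fun s' y' hs' hsp a =>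
        ⟨hE1 s' y' hs' hsp n _ _ (itg_pts (hu a)).1, hE1 s' y' hs' hsp n _ _ (itg_pts (hu a)).2⟩
      have hu1 : ∀ a, Itg (D.m n) (D.b n) (D.t s n) (pnt (g.Y s) (q' a)) (pnt (g.Y s) (q a))
          (u a) := fun a => by
        rw [hgs, hq', hq]
        exact hu a
      have hLQ : ∑ a, u a ∈ LQ (D.m n) (D.b n) (D.t s n) := by
        rw [hsum]
        exact hv n
      obtain ⟨ε, hε, hball, -, V, hV1, hV2, hV3, hV4⟩ := hBai s hsX hinj K' g hgG hsW n k q' q
        (fun s' hs' hi a => hp s' _ hi (hgSpc s' hs') a) u hu1 hLQ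
      have hst := Stt Φ p N D h s w M hM hinj K' y₁ g hsW hgs hgSpc n k q' q u v hsum
        ⟨ε, hε, hball, V, hV1, hV2, hV3, hV4⟩
      obtain ⟨η, ⟨-, -, -, -, hη0⟩, hGd⟩ := Pth Φ p N D h s w M hM n K' k y₁ q' q hp D₀ huniq
        γ 0 0 hγ φ hφ y₁' hy0 hct v hst
      obtain ⟨u', hu', hs'⟩ := End p N D h s w M hinj n K' k q' q hk η (φ 1 v) hGd
      refine ⟨u', fun a => ?_, hs'⟩
      have h1 := hu' a
      rw [hη0] at h1
      simp only [pnt, q', q, hy1] at h1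
      exact h1

end TATE.MG
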