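import Pool.Agent.Lib.TATE.MG.Spec

/-!
# PROJECT TATE, MG: inverses of a continuous family of linear maps
-/

set_option autoImplicit false

open Topology Metric

noncomputable section

namespace TATE.MG

open HC HC.CC SEJ TATE

theorem tInv : S_Inv := by
  intro X V _ _ _ _ U A h hA hh
  have hc : CompleteSpace V := FiniteDimensional.complete ℝ V
  have hB : ContinuousOn (fun ξ => ((A ξ).toContinuousLinearEquiv : V →L[ℝ] V)) U :=
    continuousOn_clm_apply.2 fun v => hA v
  have hinv : ∀ ξ, Ring.inverse ((A ξ).toContinuousLinearEquiv : V →L[ℝ] V) =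
      ((A ξ).toContinuousLinearEquiv.symm : V →L[ℝ] V) := by
    intro ξ
    rw [ContinuousLinearMap.ringInverse_equiv, ContinuousLinearMap.inverse_equiv]
  have hI : ContinuousOn
      (fun ξ => ((A ξ).toContinuousLinearEquiv.symm : V →L[ℝ] V)) U := by
    intro ξ hξ
    have h1 : ContinuousAt Ring.inverse
        (((A ξ).toContinuousLinearEquiv.toUnit : (V →L[ℝ] V)ˣ) : V →L[ℝ] V) :=
      NormedRing.inverse_continuousAt _
    have h2 := ContinuousAt.comp_continuousWithinAt
      (f := fun ξ => ((A ξ).toContinuousLinearEquiv : V →L[ℝ] V)) h1 (hB ξ hξ)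
    refine h2.congr (fun y _ => ?_) ?_
    · exact (hinv y).symm
    · exact (hinv ξ).symm
  exact hI.clm_apply hh

end TATE.MG
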