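import Pool.Agent.Lib.TATE.Iface2

/-!
# PROJECT TATE, package MG (helper7): monodromy and Galois group (`StmtMG`)

Proof by helper59 (Baire, continuation along the path, end value). Every statement `S_X` is to be proved as
`theorem tX : S_X` in its own module `Pool/Agent/Lib/TATE/MG/X.lean` (namespace `TATE.MG`); the docstring
contains the complete proof. Statements which are used are hypotheses of `S_X`, so all modules are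
independent.
-/

set_option autoImplicit false

open Topology Metric

noncomputable section

namespace TATE.MG

open HC HC.CC SEJ TATE

/-- **Inv**: INVERSES OF A CONTINUOUS FAMILY. Proof. Pass to `B ξ : V →L[ℝ] V` (`LinearMap.toContinuousLinearMap`);
`V` is finite-dimensional, so `B` is continuous on `U` (`continuousOn_clm_apply`). `B ξ` is a unit of the complete
normed ring `V →L[ℝ] V`, `Ring.inverse` is continuous at units (`NormedRing.inverse_continuousAt`), and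
`Ring.inverse (B ξ) v = (A ξ).symm v`; finally `ContinuousOn.clm_apply`. -/
def S_Inv : Prop :=
  ∀ (X V : Type) [TopologicalSpace X] [NormedAddCommGroup V] [NormedSpace ℝ V]
    [FiniteDimensional ℝ V] (U : Set X) (A : X → (V ≃ₗ[ℝ] V)) (h : X → V),
    (∀ v, ContinuousOn (fun ξ => A ξ v) U) → ContinuousOn h U →
    ContinuousOn (fun ξ => (A ξ).symm (h ξ)) U

/-- **Rig**: CONTINUOUS SECTIONS ARE FLAT. Proof. `Φ.τ t₀ t'` maps `LQ t₀` onto `LQ t'` for `t'` in the ball (`latZ`,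
`k • τ v = τ (k • v)`). `h' ξ = (Φ.τ t₀ (t ξ)).symm (h ξ)` is continuous on `U` (`S_Inv`, `Φ.hol`) with values in the
countable set `LQ t₀` (`Φ.cnt`), so it is constant on the preconnected set `U`
(`IsPreconnected.image`, `Set.Countable.isTotallyDisconnected` or `IsPreconnected.subsingleton`); `U ≠ ∅` gives
`μ`; if `h ξ ∈ LZ (t ξ)` for one `ξ ∈ U` then `μ ∈ LZ t₀` by `latZ` (`τ` is injective). -/
def S_Rig : Prop :=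
  S_Inv → ∀ (m r : ℕ) (b : Fin (r + 1) → ℕ) (Φ : FamD m b) (X : Type) [TopologicalSpace X] (U : Set X)
    (t : X → (Fin (r + 1) → ℂ)) (t₀ : Fin (r + 1) → ℂ) (h : X → (Ix m b → ℂ)),
    IsPreconnected U → U.Nonempty → ContinuousOn t U → Function.Injective t₀ →
    (∀ ξ ∈ U, t ξ ∈ ball t₀ (Φ.ρ t₀)) → ContinuousOn h U → (∀ ξ ∈ U, h ξ ∈ LQ m b (t ξ)) →
    ∃ μ ∈ LQ m b t₀, (∀ ξ ∈ U, h ξ = Φ.τ t₀ (t ξ) μ) ∧ ∀ ξ ∈ U, h ξ ∈ LZ m b (t ξ) → μ ∈ LZ m b t₀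

/-- **Coc**: THE COCYCLE RELATION. Proof. `ε` with `ball t₁ ε ⊆ ball t₀ (ρ t₀) ∩ ball t₁ (ρ t₁)`. For `λ ∈ LQ t₀` apply
`S_Rig` to `X` = tuples, `U = ball t₁ ε` (convex), `t = id`, base `t₁`, `h t₂ = τ t₀ t₂ λ`: `h t₂ = τ t₁ t₂ μ`, and
`t₂ = t₁` with `Φ.one` gives `μ = τ t₀ t₁ λ`. Both sides of the assertion are `ℝ`-linear in `v` and `LQ t₀` spans
(`Φ.spn`, `Submodule.span_induction`). -/
def S_Coc : Prop :=
  (∀ (m r : ℕ) (b : Fin (r + 1) → ℕ) (Φ : FamD m b) (X : Type) [TopologicalSpace X] (U : Set X)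
    (t : X → (Fin (r + 1) → ℂ)) (t₀ : Fin (r + 1) → ℂ) (h : X → (Ix m b → ℂ)),
    IsPreconnected U → U.Nonempty → ContinuousOn t U → Function.Injective t₀ →
    (∀ ξ ∈ U, t ξ ∈ ball t₀ (Φ.ρ t₀)) → ContinuousOn h U → (∀ ξ ∈ U, h ξ ∈ LQ m b (t ξ)) →
    ∃ μ ∈ LQ m b t₀, (∀ ξ ∈ U, h ξ = Φ.τ t₀ (t ξ) μ) ∧ ∀ ξ ∈ U, h ξ ∈ LZ m b (t ξ) → μ ∈ LZ m b t₀) →
  ∀ (m r : ℕ) (b : Fin (r + 1) → ℕ) (Φ : FamD m b) (t₀ : Fin (r + 1) → ℂ), Function.Injective t₀ →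
    ∀ t₁ ∈ ball t₀ (Φ.ρ t₀), ∃ ε > 0, ball t₁ ε ⊆ ball t₀ (Φ.ρ t₀) ∧ ball t₁ ε ⊆ ball t₁ (Φ.ρ t₁) ∧
      ∀ t₂ ∈ ball t₁ ε, ∀ v, Φ.τ t₁ t₂ (Φ.τ t₀ t₁ v) = Φ.τ t₀ t₂ v

/-- The conclusion of `S_Rig`. -/
def RigC : Prop :=
  ∀ (m r : ℕ) (b : Fin (r + 1) → ℕ) (Φ : FamD m b) (X : Type) [TopologicalSpace X] (U : Set X)
    (t : X → (Fin (r + 1) → ℂ)) (t₀ : Fin (r + 1) → ℂ) (h : X → (Ix m b → ℂ)),
    IsPreconnected U → U.Nonempty → ContinuousOn t U → Function.Injective t₀ →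
    (∀ ξ ∈ U, t ξ ∈ ball t₀ (Φ.ρ t₀)) → ContinuousOn h U → (∀ ξ ∈ U, h ξ ∈ LQ m b (t ξ)) →
    ∃ μ ∈ LQ m b t₀, (∀ ξ ∈ U, h ξ = Φ.τ t₀ (t ξ) μ) ∧ ∀ ξ ∈ U, h ξ ∈ LZ m b (t ξ) → μ ∈ LZ m b t₀

/-- The conclusion of `S_Coc`. -/
def CocC : Prop :=
  ∀ (m r : ℕ) (b : Fin (r + 1) → ℕ) (Φ : FamD m b) (t₀ : Fin (r + 1) → ℂ), Function.Injective t₀ →
    ∀ t₁ ∈ ball t₀ (Φ.ρ t₀), ∃ ε > 0, ball t₁ ε ⊆ ball t₀ (Φ.ρ t₀) ∧ ball t₁ ε ⊆ ball t₁ (Φ.ρ t₁) ∧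
      ∀ t₂ ∈ ball t₁ ε, ∀ v, Φ.τ t₁ t₂ (Φ.τ t₀ t₁ v) = Φ.τ t₀ t₂ v

/-- **Lz**: THE GROUPS OF PERIODS. Proof from the first four clauses of `StmtFA2`. There is a point in `Pts` (`x ∉ range t`,
`y` an `m`-th root of the product, `IsAlgClosed.exists_pow_nat_eq`), so `0 ∈ LZ` (`Itg.refl`). For `Itg P P u` and
`Itg Q Q v` take `Itg P Q w`; `Itg P P (u + w + v - w)`. Absorption: `Itg P Q v`, `Itg R R l`, `Itg Q R w`:
`Itg P Q (v + w + l - w)`. `LQ`: from `k • u ∈ LZ`, `k' • v ∈ LZ` get `(k k') • (u + v) ∈ LZ` (multiples of elements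
of `LZ` are in `LZ` by induction). -/
def S_Lz : Prop :=
  StmtFA2 → ∀ (m r : ℕ) (b : Fin (r + 1) → ℕ) (t : Fin (r + 1) → ℂ), Cvb m b → Function.Injective t →
    (0 : Ix m b → ℂ) ∈ LZ m b t ∧ (∀ u ∈ LZ m b t, ∀ v ∈ LZ m b t, u + v ∈ LZ m b t) ∧
    (∀ u ∈ LZ m b t, -u ∈ LZ m b t) ∧ (∀ u ∈ LZ m b t, u ∈ LQ m b t) ∧
    (∀ u ∈ LQ m b t, ∀ v ∈ LQ m b t, u + v ∈ LQ m b t) ∧ (∀ u ∈ LQ m b t, -u ∈ LQ m b t) ∧
    ∀ P Q v, Itg m b t P Q v → ∀ l ∈ LZ m b t, Itg m b t P Q (v + l)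

/-- The conclusion of `S_Lz`. -/
def LzC : Prop :=
  ∀ (m r : ℕ) (b : Fin (r + 1) → ℕ) (t : Fin (r + 1) → ℂ), Cvb m b → Function.Injective t →
    (0 : Ix m b → ℂ) ∈ LZ m b t ∧ (∀ u ∈ LZ m b t, ∀ v ∈ LZ m b t, u + v ∈ LZ m b t) ∧
    (∀ u ∈ LZ m b t, -u ∈ LZ m b t) ∧ (∀ u ∈ LZ m b t, u ∈ LQ m b t) ∧
    (∀ u ∈ LQ m b t, ∀ v ∈ LQ m b t, u + v ∈ LQ m b t) ∧ (∀ u ∈ LQ m b t, -u ∈ LQ m b t) ∧
    ∀ P Q v, Itg m b t P Q v → ∀ l ∈ LZ m b t, Itg m b t P Q (v + l)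

/-- The point with the coordinates number `q.1`, `q.2`. -/
def pnt {K : ℕ} (y : Fin K → ℂ) (q : Fin K × Fin K) : ℂ × ℂ := (y q.1, y q.2)

/-- **Ext**: ADDING THE INVERSES `(y_i - t_j)⁻¹`. Proof. `K'` = the cardinality of
`I = Fin K ⊕ (Σ n, Fin K × Fin (D.r n + 1))`, `y~` = `y` on the first summand, `(y_i - D.t s n j)⁻¹` on the second
(transported by `Fintype.equivFin`), `ι` the first inclusion. `AlgO s` is closed under the field operations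
(`IsAlgebraic.sub`, `.inv`), `D.t s n j` is in the adjoin. Let `d = s_(i j) - s_l` if `D.k n = some l` (nonzero,
also for `s'`, because `D.i n j ≠ l` by `Dt.ok.lt` and `s'` is injective). Relations which hold for `(s, y~)`, hence
for `(s', y~')`: `k = none`: `(Y_i - S_(i j)) U = 1` and `Y_j ^ m = ∏ (Y_i - S_(i j)) ^ b`; `k = some l`:
`(Y_i d - 1) U = d` and `Y_j ^ m ∏ d_j ^ b_j = ∏ (Y_i d_j - 1) ^ b_j` (write them as `MvPolynomial`s and use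
`MvPolynomial.aeval`, `simp`). The first says that `Y'_i ∉ range (D.t s' n)`, the second is the equation of the
curve after division by `∏ d_j ^ b_j ≠ 0`. Last clause: `MvPolynomial.rename (Sum.map id ι)`,
`MvPolynomial.aeval_rename`. -/
def S_Ext : Prop :=
  ∀ (p N : ℕ) (D : Dt p N), D.ok → ∀ (s : Fin p → ℂ), Function.Injective s → ∀ (K : ℕ) (y : Fin K → ℂ),
    (∀ i, AlgO s (y i)) → ∃ (K' : ℕ) (y₁ : Fin K' → ℂ) (ι : Fin K → Fin K'), (∀ i, AlgO s (y₁ i)) ∧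
      (∀ i, y₁ (ι i) = y i) ∧
      (∀ (s' : Fin p → ℂ) (y' : Fin K' → ℂ), Function.Injective s' → Spc s y₁ s' y' →
        ∀ (n : Fin N) (i j : Fin K), (y i, y j) ∈ Pts (D.m n) (D.b n) (D.t s n) →
          (y' (ι i), y' (ι j)) ∈ Pts (D.m n) (D.b n) (D.t s' n)) ∧
      ∀ (s' : Fin p → ℂ) (y' : Fin K' → ℂ), Spc s y₁ s' y' → Spc s y s' fun i => y' (ι i)

/-- **TCo**: THE BRANCH POINTS depend holomorphically on `s`. Proof. `ln s w z` is affine in `z`. `D.t s n j` is `s (D.i n j)`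
or `(s (D.i n j) - s l)⁻¹` with `D.i n j ≠ l` (`Dt.ok.lt`), so it is holomorphic at injective `s`, and injective in
`j` (`Dt.ok.inj`, `inv_inj`). The injective tuples are open (finite intersection of the open sets `s i ≠ s j`); the
last clauses by continuity; `Bd s w` is the preimage of the complement under the continuous map `ln s w`. -/
def S_TCo : Prop :=
  ∀ (p N : ℕ) (D : Dt p N), D.ok → ∀ n : Fin N,
    IsOpen {s : Fin p → ℂ | Function.Injective s} ∧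
    DifferentiableOn ℂ (fun s : Fin p → ℂ => D.t s n) {s | Function.Injective s} ∧
    (∀ s : Fin p → ℂ, Function.Injective s → Function.Injective (D.t s n)) ∧
    (∀ s₀ : Fin p → ℂ, Function.Injective s₀ → ∀ ρ > 0, ∃ ε > 0, ∀ s' ∈ ball s₀ ε,
      Function.Injective s' ∧ D.t s' n ∈ ball (D.t s₀ n) ρ) ∧
    ∀ s w : Fin p → ℂ, IsOpen (Bd s w)ᶜ ∧ DifferentiableOn ℂ (fun z => D.t (ln s w z) n) (Bd s w)ᶜ

/-- **Int**: HOLOMORPHIC INTEGRALS, with parameter `s'` and on a line. Proof: clause (5) of `StmtFA2`, with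
`t s' = D.t s' n` (`pt`: coordinates of `s'` or inverses of differences of coordinates, which are not zero since
`s'` is injective and `D.i n j ≠ l`), `P = pnt (Y s') q'`, `Q = pnt (Y s') q`; on the line: `e = 1`,
`U = {ξ | ξ 0 ∈ ball z₀ ε₀}`, `t ξ = D.t (ln s w (ξ 0)) n`; compose the result with `z ↦ fun _ => z`. Shrink to a
ball. -/
def S_Int : Prop :=
  StmtFA2 → S_TCo → ∀ (p N : ℕ) (D : Dt p N), D.ok → ∀ (n : Fin N) (K : ℕ) (q' q : Fin K × Fin K),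
    (∀ (W : Set (Fin p → ℂ)) (Y : (Fin p → ℂ) → (Fin K → ℂ)), IsOpen W → DifferentiableOn ℂ Y W →
      (∀ s' ∈ W, Function.Injective s' ∧ pnt (Y s') q' ∈ Pts (D.m n) (D.b n) (D.t s' n) ∧
        pnt (Y s') q ∈ Pts (D.m n) (D.b n) (D.t s' n)) → ∀ s₀ ∈ W, ∀ v₀,
      Itg (D.m n) (D.b n) (D.t s₀ n) (pnt (Y s₀) q') (pnt (Y s₀) q) v₀ →
      ∃ ε > 0, ball s₀ ε ⊆ W ∧ ∃ V : (Fin p → ℂ) → (Ix (D.m n) (D.b n) → ℂ),
        DifferentiableOn ℂ V (ball s₀ ε) ∧ V s₀ = v₀ ∧ ∀ s' ∈ ball s₀ ε,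
          Itg (D.m n) (D.b n) (D.t s' n) (pnt (Y s') q') (pnt (Y s') q) (V s')) ∧
    ∀ (s w : Fin p → ℂ) (z₀ : ℂ) (ε₀ : ℝ) (η : ℂ → (Fin K → ℂ)), 0 < ε₀ →
      DifferentiableOn ℂ η (ball z₀ ε₀) →
      (∀ z ∈ ball z₀ ε₀, Function.Injective (ln s w z) ∧
        pnt (η z) q' ∈ Pts (D.m n) (D.b n) (D.t (ln s w z) n) ∧
        pnt (η z) q ∈ Pts (D.m n) (D.b n) (D.t (ln s w z) n)) → ∀ v₀,
      Itg (D.m n) (D.b n) (D.t (ln s w z₀) n) (pnt (η z₀) q') (pnt (η z₀) q) v₀ →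
      ∃ ε > 0, ε ≤ ε₀ ∧ ∃ V : ℂ → (Ix (D.m n) (D.b n) → ℂ), DifferentiableOn ℂ V (ball z₀ ε) ∧
        V z₀ = v₀ ∧ ∀ z ∈ ball z₀ ε,
          Itg (D.m n) (D.b n) (D.t (ln s w z) n) (pnt (η z) q') (pnt (η z) q) (V z)

/-- The conclusion of `S_Int`. -/
def IntC : Prop :=
  ∀ (p N : ℕ) (D : Dt p N), D.ok → ∀ (n : Fin N) (K : ℕ) (q' q : Fin K × Fin K),
    (∀ (W : Set (Fin p → ℂ)) (Y : (Fin p → ℂ) → (Fin K → ℂ)), IsOpen W → DifferentiableOn ℂ Y W →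
      (∀ s' ∈ W, Function.Injective s' ∧ pnt (Y s') q' ∈ Pts (D.m n) (D.b n) (D.t s' n) ∧
        pnt (Y s') q ∈ Pts (D.m n) (D.b n) (D.t s' n)) → ∀ s₀ ∈ W, ∀ v₀,
      Itg (D.m n) (D.b n) (D.t s₀ n) (pnt (Y s₀) q') (pnt (Y s₀) q) v₀ →
      ∃ ε > 0, ball s₀ ε ⊆ W ∧ ∃ V : (Fin p → ℂ) → (Ix (D.m n) (D.b n) → ℂ),
        DifferentiableOn ℂ V (ball s₀ ε) ∧ V s₀ = v₀ ∧ ∀ s' ∈ ball s₀ ε,
          Itg (D.m n) (D.b n) (D.t s' n) (pnt (Y s') q') (pnt (Y s') q) (V s')) ∧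
    ∀ (s w : Fin p → ℂ) (z₀ : ℂ) (ε₀ : ℝ) (η : ℂ → (Fin K → ℂ)), 0 < ε₀ →
      DifferentiableOn ℂ η (ball z₀ ε₀) →
      (∀ z ∈ ball z₀ ε₀, Function.Injective (ln s w z) ∧
        pnt (η z) q' ∈ Pts (D.m n) (D.b n) (D.t (ln s w z) n) ∧
        pnt (η z) q ∈ Pts (D.m n) (D.b n) (D.t (ln s w z) n)) → ∀ v₀,
      Itg (D.m n) (D.b n) (D.t (ln s w z₀) n) (pnt (η z₀) q') (pnt (η z₀) q) v₀ →
      ∃ ε > 0, ε ≤ ε₀ ∧ ∃ V : ℂ → (Ix (D.m n) (D.b n) → ℂ), DifferentiableOn ℂ V (ball z₀ ε) ∧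
        V z₀ = v₀ ∧ ∀ z ∈ ball z₀ ε,
          Itg (D.m n) (D.b n) (D.t (ln s w z) n) (pnt (η z) q') (pnt (η z) q) (V z)

/-- **Bai**: BAIRE. Proof. Index set: all `(K, g, n, k, Q', Q)` with `g ∈ G K` and the condition (★) '`∀ s' ∈ g.W`, `s'`
injective: all points are in `Pts`': countable. Fix an index. `W° = g.W ∩ {injective}` is open (`TCo`). For `ξ ∈ W°`
choose values `v_a` at `ξ` (first clause of `FA2`), then (`IntC`, first half) a ball `B_ξ = ball ξ ε_ξ ⊆ W°` and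
`V^ξ_a` on it; by `TCo` we may assume `D.t s' n ∈ ball (D.t ξ n) ρ` on `B_ξ`. Lindelöf
(`TopologicalSpace.countable_cover_nhds` or `isOpen_iUnion_countable`): countably many `ξ` suffice to cover `W°`.
For such `ξ` and `μ ∈ LQ (D.t ξ n)` (countable: `cnt`) let
`C(ξ, μ) = {s' ∈ B_ξ | ∑ V^ξ_a s' = τ (D.t ξ n) (D.t s' n) μ}`, relatively closed in `B_ξ` (both sides are
continuous on `B_ξ`; `continuousOn_iff_isClosed`). `StmtGA3` with the constant sequences `B_ξ`, `C(ξ, μ)` gives a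
meagre set; `X` = the union of all of them (`isMeagre_iUnion` over a countable type, `IsMeagre.mono`).
Let `s ∉ X`, with the data and `u`. `s ∈ B_ξ` for one of the `ξ`. `V^ξ_a s - u a ∈ LZ (D.t s n)` (fourth clause of
`FA2`), so `∑ V^ξ_a s ∈ LQ (D.t s n)` (`LzC`), and it is `τ (D.t ξ n) (D.t s n) μ` with `μ ∈ LQ` (`latZ`, divide by
`k`). So `s ∈ C(ξ, μ)`, and `C(ξ, μ)` is a neighbourhood of `s`: `∑ V^ξ_a s' = τ (D.t ξ n) (D.t s' n) μ` on a ball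
around `s`. Let `V_a` be the integrals of `IntC` with `V_a s = u a`. On a ball around `s` (preconnected) `V_a -
V^ξ_a` has values in `LZ (D.t s' n)`, so it is `τ (D.t s n) (D.t s' n) l_a` (`RigC`), and
`s' ↦ τ (D.t ξ n) (D.t s' n) μ` has values in `LQ`, so it is `τ (D.t s n) (D.t s' n) μ'`. Hence
`∑ V_a s' = τ (D.t s n) (D.t s' n) (μ' + ∑ l_a)` and `s' = s`, `Φ.one` gives `μ' + ∑ l_a = ∑ u a`. -/
def S_Bai : Prop :=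
  StmtFA2 → StmtGA3 → RigC → LzC → IntC → S_TCo →
  ∀ (Φ : FF) (p N : ℕ) (D : Dt p N) (h : D.ok) (G : ∀ K, Set (Grm p K)), (∀ K, (G K).Countable) →
    ∃ X : Set (Fin p → ℂ), IsMeagre X ∧ ∀ s ∉ X, Function.Injective s → ∀ K, ∀ g ∈ G K, s ∈ g.W →
    ∀ (n : Fin N) (k : ℕ) (Q' Q : Fin k → Fin K × Fin K),
    (∀ s' ∈ g.W, Function.Injective s' → ∀ a, pnt (g.Y s') (Q' a) ∈ Pts (D.m n) (D.b n) (D.t s' n) ∧
      pnt (g.Y s') (Q a) ∈ Pts (D.m n) (D.b n) (D.t s' n)) →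
    ∀ u : Fin k → (Ix (D.m n) (D.b n) → ℂ),
    (∀ a, Itg (D.m n) (D.b n) (D.t s n) (pnt (g.Y s) (Q' a)) (pnt (g.Y s) (Q a)) (u a)) →
    ∑ a, u a ∈ LQ (D.m n) (D.b n) (D.t s n) →
    ∃ ε > 0, ball s ε ⊆ g.W ∧ (∀ s' ∈ ball s ε, Function.Injective s' ∧
      D.t s' n ∈ ball (D.t s n) ((Φ _ _ _ (h.cv n)).ρ (D.t s n))) ∧
      ∃ V : Fin k → (Fin p → ℂ) → (Ix (D.m n) (D.b n) → ℂ),
        (∀ a, DifferentiableOn ℂ (V a) (ball s ε)) ∧ (∀ a, V a s = u a) ∧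
        (∀ s' ∈ ball s ε, ∀ a,
          Itg (D.m n) (D.b n) (D.t s' n) (pnt (g.Y s') (Q' a)) (pnt (g.Y s') (Q a)) (V a s')) ∧
        ∀ s' ∈ ball s ε, ∑ a, V a s' = (Φ _ _ _ (h.cv n)).τ (D.t s n) (D.t s' n) (∑ a, u a)

/-- The conclusion of `S_Bai`. -/
def BaiC : Prop :=
  ∀ (Φ : FF) (p N : ℕ) (D : Dt p N) (h : D.ok) (G : ∀ K, Set (Grm p K)), (∀ K, (G K).Countable) →
    ∃ X : Set (Fin p → ℂ), IsMeagre X ∧ ∀ s ∉ X, Function.Injective s → ∀ K, ∀ g ∈ G K, s ∈ g.W →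
    ∀ (n : Fin N) (k : ℕ) (Q' Q : Fin k → Fin K × Fin K),
    (∀ s' ∈ g.W, Function.Injective s' → ∀ a, pnt (g.Y s') (Q' a) ∈ Pts (D.m n) (D.b n) (D.t s' n) ∧
      pnt (g.Y s') (Q a) ∈ Pts (D.m n) (D.b n) (D.t s' n)) →
    ∀ u : Fin k → (Ix (D.m n) (D.b n) → ℂ),
    (∀ a, Itg (D.m n) (D.b n) (D.t s n) (pnt (g.Y s) (Q' a)) (pnt (g.Y s) (Q a)) (u a)) →
    ∑ a, u a ∈ LQ (D.m n) (D.b n) (D.t s n) →
    ∃ ε > 0, ball s ε ⊆ g.W ∧ (∀ s' ∈ ball s ε, Function.Injective s' ∧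
      D.t s' n ∈ ball (D.t s n) ((Φ _ _ _ (h.cv n)).ρ (D.t s n))) ∧
      ∃ V : Fin k → (Fin p → ℂ) → (Ix (D.m n) (D.b n) → ℂ),
        (∀ a, DifferentiableOn ℂ (V a) (ball s ε)) ∧ (∀ a, V a s = u a) ∧
        (∀ s' ∈ ball s ε, ∀ a,
          Itg (D.m n) (D.b n) (D.t s' n) (pnt (g.Y s') (Q' a)) (pnt (g.Y s') (Q a)) (V a s')) ∧
        ∀ s' ∈ ball s ε, ∑ a, V a s' = (Φ _ _ _ (h.cv n)).τ (D.t s n) (D.t s' n) (∑ a, u a)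

/-- The local statement at the point `z₀` of the line: near `z₀` the sum of integrals between the points with
coordinates `η z` is the flat continuation of `c`, up to periods. -/
def Gd {p N : ℕ} (D : Dt p N) (s w : Fin p → ℂ) (M : Fml D.V (Bd s w)) (n : Fin N) {K k : ℕ}
    (Q' Q : Fin k → Fin K × Fin K) (z₀ : ℂ) (η : ℂ → (Fin K → ℂ)) (c : D.V) : Prop :=
  ∃ ε > 0, ball z₀ ε ⊆ ball z₀ (M.r z₀) ∧ ∃ V : Fin k → ℂ → (Ix (D.m n) (D.b n) → ℂ),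
    (∀ a, DifferentiableOn ℂ (V a) (ball z₀ ε)) ∧ ∀ z ∈ ball z₀ ε,
      (∀ a, Itg (D.m n) (D.b n) (D.t (ln s w z) n) (pnt (η z) (Q' a)) (pnt (η z) (Q a)) (V a z)) ∧
      ∑ a, V a z - M.τ z₀ z c n ∈ LZ (D.m n) (D.b n) (D.t (ln s w z) n)

/-- **Mv**: MOVING THE BASE POINT. Proof. Choose (first clause of `FA2`, `IntC` second half, minimum over `a`) `ε ≤ ε₀` and
integrals `V*_a` on `ball z₀ ε`, and put `h z = ∑ V*_a z - M.τ z₀ z c n`, holomorphic on the ball (`M.hol`, or `IsLn.τ`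
and `(Φ ..).hol`). `t z = D.t (ln s w z) n ∈ ball (t z₀) ρ` for `z ∈ ball z₀ (M.r z₀)` (`IsLn.r`).
(A) If `h z ∈ LZ (t z)` for all `z` near a point `z₁ ∈ ball z₀ ε` then for all `z ∈ ball z₀ ε`: `RigC` on a small
ball round `z₁` with base `t z₀` (`LZ ⊆ LQ` by `LzC`) gives `l ∈ LZ (t z₀)` with `h z = τ (t z₀) (t z) l` near
`z₁`; both sides are holomorphic on `ball z₀ ε` (composition of `(Φ ..).hol` with `z ↦ t z`), so they are equal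
there (`DifferentiableOn.analyticOnNhd`, `AnalyticOnNhd.eqOn_of_preconnected_of_eventuallyEq`), and
`τ (t z₀) (t z) l ∈ LZ (t z)` by `latZ`.
(B) Cocycle: for `z` near `z₁`: `M.τ z₁ z (M.τ z₀ z₁ c) n = M.τ z₀ z c n` (`IsLn.τ` three times, `CocC`, continuity of
`t`). (→) From `Gd` at `z₁`: near `z₁` the differences `V*_a z - V_a z` are in `LZ (t z)` (fourth clause of `FA2`), so
with (B) `h z ∈ LZ (t z)` near `z₁` (`LzC`); (A). Then `Gd` at `z₀` with `V*`. (←) From `Gd` at `z₀`: `h z ∈ LZ (t z)`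
near `z₀`, so by (A) on the ball, and `Gd` at `z₁` with `V*` on a smaller ball round `z₁` and (B). -/
def S_Mv : Prop :=
  StmtFA2 → RigC → CocC → LzC → IntC → S_TCo →
  ∀ (Φ : FF) (p N : ℕ) (D : Dt p N) (h : D.ok) (s w : Fin p → ℂ) (M : Fml D.V (Bd s w)),
    IsLn Φ D h s w M → ∀ (n : Fin N) (K k : ℕ) (Q' Q : Fin k → Fin K × Fin K), ∀ z₀ ∉ Bd s w,
    ∀ (η : ℂ → (Fin K → ℂ)) (ε₀ : ℝ), 0 < ε₀ → DifferentiableOn ℂ η (ball z₀ ε₀) →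
    (∀ z ∈ ball z₀ ε₀, ∀ a, pnt (η z) (Q' a) ∈ Pts (D.m n) (D.b n) (D.t (ln s w z) n) ∧
      pnt (η z) (Q a) ∈ Pts (D.m n) (D.b n) (D.t (ln s w z) n)) →
    ∃ ε > 0, ball z₀ ε ⊆ ball z₀ (M.r z₀) ∧ ∀ z₁ ∈ ball z₀ ε, ∀ c,
      (Gd D s w M n Q' Q z₁ η (M.τ z₀ z₁ c) ↔ Gd D s w M n Q' Q z₀ η c)

/-- The conclusion of `S_Mv`. -/
def MvC : Prop :=
  ∀ (Φ : FF) (p N : ℕ) (D : Dt p N) (h : D.ok) (s w : Fin p → ℂ) (M : Fml D.V (Bd s w)),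
    IsLn Φ D h s w M → ∀ (n : Fin N) (K k : ℕ) (Q' Q : Fin k → Fin K × Fin K), ∀ z₀ ∉ Bd s w,
    ∀ (η : ℂ → (Fin K → ℂ)) (ε₀ : ℝ), 0 < ε₀ → DifferentiableOn ℂ η (ball z₀ ε₀) →
    (∀ z ∈ ball z₀ ε₀, ∀ a, pnt (η z) (Q' a) ∈ Pts (D.m n) (D.b n) (D.t (ln s w z) n) ∧
      pnt (η z) (Q a) ∈ Pts (D.m n) (D.b n) (D.t (ln s w z) n)) →
    ∃ ε > 0, ball z₀ ε ⊆ ball z₀ (M.r z₀) ∧ ∀ z₁ ∈ ball z₀ ε, ∀ c,
      (Gd D s w M n Q' Q z₁ η (M.τ z₀ z₁ c) ↔ Gd D s w M n Q' Q z₀ η c)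

/-- `η` is a germ at `z₀` of the continuation, with value `y₀`. -/
def IsGm {p K : ℕ} (s w : Fin p → ℂ) (y : Fin K → ℂ) (z₀ : ℂ) (η : ℂ → (Fin K → ℂ))
    (y₀ : Fin K → ℂ) : Prop :=
  ∃ ε > 0, DifferentiableOn ℂ η (ball z₀ ε) ∧ (∀ z ∈ ball z₀ ε, Spc s y (ln s w z) (η z)) ∧ η z₀ = y₀

/-- **Pth**: ALONG THE PATH. Proof. For `t ∈ Icc 0 1` let `P t`: 'there is `η` with `IsGm s w y (γ t) η (y' t)` and
`Gd (γ t) η (φ t v)`'. Claim: every `t₁ ∈ Icc 0 1` has `δ > 0` such that `P t' ↔ P t₁` for all `t' ∈ Icc 0 1`,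
`|t' - t₁| < δ`. Let `η₁`, `ε₁`, `δ₁` be given by `IsCt.loc` at `t₁` (so `η₁ (γ t') = y' t'` for `t'` near `t₁`), and
`ε` by `MvC` for `z₀ = γ t₁`, `η₁` (the points are in `Pts` by the hypothesis `hp`, because `Spc s y` holds and
`ln s w z` is injective on a small ball). By `IsTr.loc` at `t₁`, for `t'` near `t₁`: `φ t' v = M.τ (γ t₁) (γ t') (φ t₁
v)` and `γ t' ∈ ball (γ t₁) ε` (`γ` is continuous). Local uniqueness: if `η'` is any germ with `IsGm .. (γ t') η'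
(y' t')`, then `η' = η₁` near `γ t'` (hypothesis `hu`: both are continuous and satisfy `Spc` near `γ t' ∉ D₀`, and
have the same value at `γ t'`); `Gd (γ t') η' c ↔ Gd (γ t') η₁ c` (shrink the ball). So `P t' ↔ Gd (γ t') η₁ (φ t' v)
↔ Gd (γ t₁) η₁ (φ t₁ v) ↔ P t₁`. The interval is connected (or: the set `{t | P t}` is relatively open and closed,
`isPreconnected_Icc`), so `P 0 → P 1`. -/
def S_Pth : Prop :=
  MvC → ∀ (Φ : FF) (p N : ℕ) (D : Dt p N) (h : D.ok) (s w : Fin p → ℂ) (M : Fml D.V (Bd s w)),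
    IsLn Φ D h s w M → ∀ (n : Fin N) (K k : ℕ) (y : Fin K → ℂ) (Q' Q : Fin k → Fin K × Fin K)
    (hp : ∀ (s' : Fin p → ℂ) (y' : Fin K → ℂ), Function.Injective s' → Spc s y s' y' → ∀ a,
      pnt y' (Q' a) ∈ Pts (D.m n) (D.b n) (D.t s' n) ∧
      pnt y' (Q a) ∈ Pts (D.m n) (D.b n) (D.t s' n)) (D₀ : Set ℂ)
    (hu : ∀ z₀ ∉ D₀, ∀ η η' : ℂ → (Fin K → ℂ), (∀ᶠ z in 𝓝 z₀, ContinuousAt η z ∧
        ContinuousAt η' z ∧ Spc s y (ln s w z) (η z) ∧ Spc s y (ln s w z) (η' z)) →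
        η z₀ = η' z₀ → ∀ᶠ z in 𝓝 z₀, η z = η' z)
    (γ : ℝ → ℂ) (z z' : ℂ), IsPth (Bd s w ∪ D₀) γ z z' → ∀ (φ : ℝ → (D.V ≃ₗ[ℝ] D.V)), IsTr M γ φ →
    ∀ y' : ℝ → (Fin K → ℂ), y' 0 = y → IsCt s w γ y' → ∀ v : D.V,
    (∃ η, IsGm s w y z η y ∧ Gd D s w M n Q' Q z η v) →
    ∃ η, IsGm s w y z' η (y' 1) ∧ Gd D s w M n Q' Q z' η (φ 1 v)

/-- **Zer**: THE ZERO VECTOR stays zero. Proof: `{t ∈ Icc 0 1 | φ t v n = 0}` is relatively open and closed: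
`φ t' v n = M.τ (γ t) (γ t') (φ t v) n = (Φ ..).τ .. .. (φ t v n)` near `t` (`IsTr.loc`, `IsLn.τ`), and `τ` is
injective; it contains `0` (`IsTr.zero`). -/
def S_Zer : Prop :=
  ∀ (Φ : FF) (p N : ℕ) (D : Dt p N) (h : D.ok) (s w : Fin p → ℂ) (M : Fml D.V (Bd s w)),
    IsLn Φ D h s w M → ∀ (n : Fin N) (γ : ℝ → ℂ) (z z' : ℂ), IsPth (Bd s w) γ z z' →
    ∀ (φ : ℝ → (D.V ≃ₗ[ℝ] D.V)), IsTr M γ φ → ∀ v : D.V, v n = 0 → φ 1 v n = 0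

/-- **End**: ABSORBING THE PERIOD. Proof. At `z = 0`: `ln s w 0 = s`, `M.τ 0 0 c = c` (`M.one`, `0 ∉ Bd s w`). So
`∑ V a 0 = c n + l`, `l ∈ LZ (D.t s n)`, `0 < k`: take `u' a = V a 0` for `a ≠ 0` and `u' 0 = V 0 0 - l` (absorption in
`LzC`, `-l ∈ LZ`). -/
def S_End : Prop :=
  LzC → S_TCo → ∀ (p N : ℕ) (D : Dt p N), D.ok → ∀ (s w : Fin p → ℂ) (M : Fml D.V (Bd s w)),
    Function.Injective s → ∀ (n : Fin N) (K k : ℕ) (Q' Q : Fin k → Fin K × Fin K), 0 < k →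
    ∀ (η : ℂ → (Fin K → ℂ)) (c : D.V), Gd D s w M n Q' Q 0 η c →
    ∃ u' : Fin k → (Ix (D.m n) (D.b n) → ℂ),
      (∀ a, Itg (D.m n) (D.b n) (D.t s n) (pnt (η 0) (Q' a)) (pnt (η 0) (Q a)) (u' a)) ∧
      ∑ a, u' a = c n

/-- **Stt**: THE START. Proof. `ln s w 0 = s`, `z ↦ ln s w z` is holomorphic; on a small ball round `0` (inside `ball 0
(M.r 0)`) put `V a z = V a (ln s w z)` with the `V a` of the conclusion of `Bai`; `M.τ 0 z v n = (Φ ..).τ (D.t s n)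
(D.t (ln s w z) n) (v n)` by `IsLn.τ` (`0 ∉ Bd s w`), so the difference is `0 ∈ LZ` (`LzC`). `IsGm`: `g.Y ∘ ln s w` is
holomorphic near `0` because `g.W` is open and `s ∈ g.W`. -/
def S_Stt : Prop :=
  LzC → S_TCo → ∀ (Φ : FF) (p N : ℕ) (D : Dt p N) (h : D.ok) (s w : Fin p → ℂ) (M : Fml D.V (Bd s w)),
    IsLn Φ D h s w M → Function.Injective s → ∀ (K : ℕ) (y : Fin K → ℂ) (g : Grm p K), s ∈ g.W →
    g.Y s = y → (∀ s' ∈ g.W, Spc s y s' (g.Y s')) → ∀ (n : Fin N) (k : ℕ)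
    (Q' Q : Fin k → Fin K × Fin K) (u : Fin k → (Ix (D.m n) (D.b n) → ℂ)) (v : D.V),
    ∑ a, u a = v n →
    (∃ ε > 0, ball s ε ⊆ g.W ∧ ∃ V : Fin k → (Fin p → ℂ) → (Ix (D.m n) (D.b n) → ℂ),
        (∀ a, DifferentiableOn ℂ (V a) (ball s ε)) ∧ (∀ a, V a s = u a) ∧
        (∀ s' ∈ ball s ε, ∀ a,
          Itg (D.m n) (D.b n) (D.t s' n) (pnt (g.Y s') (Q' a)) (pnt (g.Y s') (Q a)) (V a s')) ∧
        ∀ s' ∈ ball s ε, ∑ a, V a s' = (Φ _ _ _ (h.cv n)).τ (D.t s n) (D.t s' n) (∑ a, u a)) →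
    ∃ η, IsGm s w y 0 η y ∧ Gd D s w M n Q' Q 0 η v

/-- The conclusion of `S_Pth`. -/
def PthC : Prop :=
  ∀ (Φ : FF) (p N : ℕ) (D : Dt p N) (h : D.ok) (s w : Fin p → ℂ) (M : Fml D.V (Bd s w)),
    IsLn Φ D h s w M → ∀ (n : Fin N) (K k : ℕ) (y : Fin K → ℂ) (Q' Q : Fin k → Fin K × Fin K)
    (_ : ∀ (s' : Fin p → ℂ) (y' : Fin K → ℂ), Function.Injective s' → Spc s y s' y' → ∀ a,
      pnt y' (Q' a) ∈ Pts (D.m n) (D.b n) (D.t s' n) ∧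
      pnt y' (Q a) ∈ Pts (D.m n) (D.b n) (D.t s' n)) (D₀ : Set ℂ)
    (_ : ∀ z₀ ∉ D₀, ∀ η η' : ℂ → (Fin K → ℂ), (∀ᶠ z in 𝓝 z₀, ContinuousAt η z ∧
        ContinuousAt η' z ∧ Spc s y (ln s w z) (η z) ∧ Spc s y (ln s w z) (η' z)) →
        η z₀ = η' z₀ → ∀ᶠ z in 𝓝 z₀, η z = η' z)
    (γ : ℝ → ℂ) (z z' : ℂ), IsPth (Bd s w ∪ D₀) γ z z' → ∀ (φ : ℝ → (D.V ≃ₗ[ℝ] D.V)), IsTr M γ φ →
    ∀ y' : ℝ → (Fin K → ℂ), y' 0 = y → IsCt s w γ y' → ∀ v : D.V,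
    (∃ η, IsGm s w y z η y ∧ Gd D s w M n Q' Q z η v) →
    ∃ η, IsGm s w y z' η (y' 1) ∧ Gd D s w M n Q' Q z' η (φ 1 v)

/-- The conclusion of `S_End`. -/
def EndC : Prop :=
  ∀ (p N : ℕ) (D : Dt p N), D.ok → ∀ (s w : Fin p → ℂ) (M : Fml D.V (Bd s w)),
    Function.Injective s → ∀ (n : Fin N) (K k : ℕ) (Q' Q : Fin k → Fin K × Fin K), 0 < k →
    ∀ (η : ℂ → (Fin K → ℂ)) (c : D.V), Gd D s w M n Q' Q 0 η c →
    ∃ u' : Fin k → (Ix (D.m n) (D.b n) → ℂ),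
      (∀ a, Itg (D.m n) (D.b n) (D.t s n) (pnt (η 0) (Q' a)) (pnt (η 0) (Q a)) (u' a)) ∧
      ∑ a, u' a = c n

/-- The conclusion of `S_Stt`. -/
def SttC : Prop :=
  ∀ (Φ : FF) (p N : ℕ) (D : Dt p N) (h : D.ok) (s w : Fin p → ℂ) (M : Fml D.V (Bd s w)),
    IsLn Φ D h s w M → Function.Injective s → ∀ (K : ℕ) (y : Fin K → ℂ) (g : Grm p K), s ∈ g.W →
    g.Y s = y → (∀ s' ∈ g.W, Spc s y s' (g.Y s')) → ∀ (n : Fin N) (k : ℕ)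
    (Q' Q : Fin k → Fin K × Fin K) (u : Fin k → (Ix (D.m n) (D.b n) → ℂ)) (v : D.V),
    ∑ a, u a = v n →
    (∃ ε > 0, ball s ε ⊆ g.W ∧ ∃ V : Fin k → (Fin p → ℂ) → (Ix (D.m n) (D.b n) → ℂ),
        (∀ a, DifferentiableOn ℂ (V a) (ball s ε)) ∧ (∀ a, V a s = u a) ∧
        (∀ s' ∈ ball s ε, ∀ a,
          Itg (D.m n) (D.b n) (D.t s' n) (pnt (g.Y s') (Q' a)) (pnt (g.Y s') (Q a)) (V a s')) ∧
        ∀ s' ∈ ball s ε, ∑ a, V a s' = (Φ _ _ _ (h.cv n)).τ (D.t s n) (D.t s' n) (∑ a, u a)) →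
    ∃ η, IsGm s w y 0 η y ∧ Gd D s w M n Q' Q 0 η v

/-- **Fin**: ASSEMBLY. Proof. `G K` := the countable sets of `StmtGA2 p K`; `X` := the union of the meagre set of `BaiC` and
of `StmtGA4 p`. Let `s ∉ X`: algebraically independent, injective (`AlgebraicIndependent.injective`). Given `K, y, w,
M`: `S_Ext` gives `K', y₁, ι`; `GA2` for `y₁`: `g`, and for `w`: `D₀`. Given `γ`, `φ`: the continuation `y₁'` of `y₁` and `σ`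
(`z = 0`); `y' t i = y₁' t (ι i)`; `IsCt s w γ y'` by the last clause of `S_Ext` (`y₁' 0 = y₁`). Given `n, k, Q', Q, u,
v`: if `k = 0` then `v n = 0`, `S_Zer`. If `k > 0`: let `q' a = (ι (Q' a).1, ι (Q' a).2)`, `q a` similarly; the points
`pnt y₁ (q' a)`, `pnt y₁ (q a)` are in `Pts` at `s` (third clause of `FA2`), so by `S_Ext` the hypothesis `hp` of `PthC`
holds (and the hypothesis of `BaiC` on `g.W`, by `Spc s y₁ s' (g.Y s')`). `∑ u a = v n ∈ LQ` (`v ∈ D.L s`). `BaiC`,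
`SttC`, `PthC`, `EndC` with `η 0 = y₁' 1 = σ y₁`. -/
def S_Fin : Prop :=
  StmtFA2 → StmtGA2 → StmtGA4 → BaiC → SttC → PthC → EndC → S_Zer → S_Ext → StmtMG

/-- **MG** from all statements above. -/
theorem MG_of (hInv : S_Inv) (hRig : S_Rig) (hCoc : S_Coc) (hLz : S_Lz) (hExt : S_Ext) (hInt : S_Int)
    (hTCo : S_TCo) (hBai : S_Bai) (hMv : S_Mv) (hPth : S_Pth) (hZer : S_Zer) (hEnd : S_End)
    (hStt : S_Stt) (hFin : S_Fin) (FA2 : StmtFA2) (GA2 : StmtGA2) (GA3 : StmtGA3)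
    (GA4 : StmtGA4) : StmtMG :=
  have rig : RigC := fun m r b Φ X _ => hRig hInv m r b Φ X
  have coc : CocC := hCoc rig
  have lz : LzC := hLz FA2
  have int : IntC := hInt FA2 hTCo
  hFin FA2 GA2 GA4 (hBai FA2 GA3 rig lz int hTCo) (hStt lz hTCo)
    (hPth (hMv FA2 rig coc lz int hTCo)) (hEnd lz hTCo) hZer hExt

end TATE.MG
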